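import Mathlib

set_option autoImplicit false
set_option linter.unusedSectionVars false

/-!
# Borel actions of compact groups

The orbits of a Borel action of a compact Polish group on a standard Borel space are the fibres of
a Borel map with Borel range.
-/

namespace Pool.Agent.V8H60.TV

open Set Filter Topology MeasureTheory ProbabilityTheory

/-- the probability measure on the line with the given distribution function at the rationals -/
noncomputable def J (z : ℚ → ℝ) : Measure ℝ :=
  (stieltjesOfMeasurableRat (fun z : ℚ → ℝ => z) measurable_id z).measure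

instance instJ (z : ℚ → ℝ) : IsProbabilityMeasure (J z) := by
  unfold J
  infer_instance

theorem measurable_J : Measurable J :=
  measurable_measure_stieltjesOfMeasurableRat (f := fun z : ℚ → ℝ => z) measurable_id

theorem J_eq (μ : Measure ℝ) [IsProbabilityMeasure μ] :
    J (fun q : ℚ => μ.real (Iic (q : ℝ))) = μ := by
  have hst : IsRatStieltjesPoint (fun z : ℚ → ℝ => z) (fun q : ℚ => μ.real (Iic (q : ℝ))) := by
    have h1 : (fun q : ℚ => μ.real (Iic (q : ℝ))) = fun q : ℚ => cdf μ (q : ℝ) := by
      funext q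
      rw [cdf_eq_real]
    rw [h1]
    refine ⟨fun a b hab => monotone_cdf μ (by exact_mod_cast hab), ?_, ?_, fun t => ?_⟩
    · exact (tendsto_cdf_atTop μ).comp (tendsto_ratCast_atTop_iff.2 tendsto_id)
    · exact (tendsto_cdf_atBot μ).comp (tendsto_ratCast_atBot_iff.2 tendsto_id)
    · have h2 := (cdf μ).iInf_rat_gt_eq (t : ℝ)
      show ⨅ r : Ioi t, cdf μ ((r : ℚ) : ℝ) = cdf μ (t : ℝ)
      rw [← h2]
      refine Equiv.iInf_congr (Equiv.subtypeEquivRight fun r => by
          show t < r ↔ (t : ℝ) < (r : ℝ)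
          exact_mod_cast Iff.rfl) ?_
      intro r
      rfl
  have h3 : stieltjesOfMeasurableRat (fun z : ℚ → ℝ => z) measurable_id
      (fun q : ℚ => μ.real (Iic (q : ℝ))) = cdf μ := by
    ext x
    rw [← StieltjesFunction.iInf_rat_gt_eq, ← StieltjesFunction.iInf_rat_gt_eq]
    refine iInf_congr fun r => ?_
    rw [stieltjesOfMeasurableRat_eq, toRatCDF_of_isRatStieltjesPoint hst, cdf_eq_real]
  unfold J
  rw [h3, measure_cdf]

/-- The orbits of a Borel action of a compact group are the fibres of a Borel map with Borel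
range. -/
theorem exists_code {K X : Type} [TopologicalSpace K] [Group K] [IsTopologicalGroup K]
    [CompactSpace K] [PolishSpace K] [MeasurableSpace K] [BorelSpace K] [MeasurableSpace X]
    [StandardBorelSpace X] [MulAction K X] (hm : Measurable fun p : K × X => p.1 • p.2) :
    ∃ c : X → (ℚ → ℝ), Measurable c ∧ (∀ x y, c x = c y ↔ ∃ k : K, k • x = y) ∧
      MeasurableSet (range c) := by
  let ν : Measure K := Measure.haarMeasure (⊤ : TopologicalSpace.PositiveCompacts K)
  have hν1 : IsProbabilityMeasure ν := ⟨by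
    have := Measure.haarMeasure_self (K₀ := (⊤ : TopologicalSpace.PositiveCompacts K))
    rwa [TopologicalSpace.PositiveCompacts.coe_top] at this⟩
  let e : X → ℝ := embeddingReal X
  have he : MeasurableEmbedding e := measurableEmbedding_embeddingReal X
  have hinvm : Measurable fun p : X × K => e (p.2⁻¹ • p.1) :=
    he.measurable.comp (hm.comp ((measurable_inv.comp measurable_snd).prodMk measurable_fst))
  have horb : ∀ x, Measurable fun k : K => e (k⁻¹ • x) := fun x =>
    hinvm.comp (measurable_const.prodMk measurable_id)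
  let m : X → Measure ℝ := fun x => ν.map (fun k : K => e (k⁻¹ • x))
  have hmp : ∀ x, IsProbabilityMeasure (m x) := fun x =>
    Measure.isProbabilityMeasure_map (horb x).aemeasurable
  have hma : ∀ x (s : Set ℝ), MeasurableSet s → m x s = ν {k | e (k⁻¹ • x) ∈ s} := fun x s hs =>
    Measure.map_apply (horb x) hs
  let c : X → (ℚ → ℝ) := fun x q => (m x).real (Iic (q : ℝ))
  have hcJ : ∀ x, J (c x) = m x := fun x => J_eq (m x)
  have hcm : Measurable c := by
    refine measurable_pi_lambda _ fun q => ?_
    have h1 : MeasurableSet {p : X × K | e (p.2⁻¹ • p.1) ∈ Iic (q : ℝ)} := hinvm measurableSet_Iic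
    have h2 : Measurable fun x => ν (Prod.mk x ⁻¹' {p : X × K | e (p.2⁻¹ • p.1) ∈ Iic (q : ℝ)}) :=
      measurable_measure_prodMk_left h1
    have h3 : (fun x => c x q) = fun x =>
        (ν (Prod.mk x ⁻¹' {p : X × K | e (p.2⁻¹ • p.1) ∈ Iic (q : ℝ)})).toReal := by
      funext x
      show (m x (Iic (q : ℝ))).toReal = _
      rw [hma x _ measurableSet_Iic]
      rfl
    rw [h3]
    exact h2.ennreal_toReal
  have hinv : ∀ (k₀ : K) x, m (k₀ • x) = m x := by
    intro k₀ x
    ext s hs
    rw [hma _ _ hs, hma _ _ hs]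
    have h1 : {k : K | e (k⁻¹ • k₀ • x) ∈ s} = (fun k => k₀⁻¹ * k) ⁻¹' {k | e (k⁻¹ • x) ∈ s} := by
      ext k
      show e (k⁻¹ • k₀ • x) ∈ s ↔ e ((k₀⁻¹ * k)⁻¹ • x) ∈ s
      rw [mul_inv_rev, inv_inv, mul_smul]
    rw [h1, measure_preimage_mul]
  have hsep : ∀ x y, m x = m y → ∃ k : K, k • x = y := by
    intro x y hxy
    have hax : AnalyticSet (range fun k : K => e (k⁻¹ • x)) := by
      rw [← image_univ]
      exact MeasurableSet.univ.analyticSet_image (horb x)
    have hay : AnalyticSet (range fun k : K => e (k⁻¹ • y)) := by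
      rw [← image_univ]
      exact MeasurableSet.univ.analyticSet_image (horb y)
    have hnd : ¬ Disjoint (range fun k : K => e (k⁻¹ • x)) (range fun k : K => e (k⁻¹ • y)) := by
      intro hd
      obtain ⟨u, hxu, hyu, hu⟩ := hax.measurablySeparable hay hd
      have h1 : m x u = 1 := by
        rw [hma x u hu, show {k : K | e (k⁻¹ • x) ∈ u} = univ from
          eq_univ_of_forall fun k => hxu (mem_range_self k), measure_univ]
      have h2 : m y u = 0 := by
        rw [hma y u hu, show {k : K | e (k⁻¹ • y) ∈ u} = ∅ from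
          eq_empty_of_forall_notMem fun k hk => (disjoint_left.1 hyu) (mem_range_self k) hk,
          measure_empty]
      rw [hxy, h2] at h1
      exact zero_ne_one h1
    rw [not_disjoint_iff] at hnd
    obtain ⟨_, ⟨k, hk⟩, ⟨l, hl⟩⟩ := hnd
    have h3 : k⁻¹ • x = l⁻¹ • y := he.injective (hk.trans hl.symm)
    refine ⟨l * k⁻¹, ?_⟩
    rw [mul_smul, h3, smul_inv_smul]
  have hiff : ∀ x y, c x = c y ↔ ∃ k : K, k • x = y := by
    intro x y
    constructor
    · intro h
      refine hsep x y ?_
      rw [← hcJ x, ← hcJ y, h]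
    · rintro ⟨k, rfl⟩
      show (fun q : ℚ => (m x).real (Iic (q : ℝ))) = fun q : ℚ => (m (k • x)).real (Iic (q : ℝ))
      rw [hinv]
  refine ⟨c, hcm, hiff, ?_⟩
  obtain ⟨c', hc'm, hc'⟩ := he.exists_measurable_extend hcm (fun _ => inferInstance)
  let D : Set ((ℚ → ℝ) × ℝ) := {p | p.2 ∈ range e ∧ c' p.2 = p.1}
  have hD : MeasurableSet D := by
    refine MeasurableSet.inter (measurable_snd he.measurableSet_range) ?_
    exact measurableSet_eq_fun (hc'm.comp measurable_snd) measurable_fst
  let κ : Kernel (ℚ → ℝ) ℝ := ⟨J, measurable_J⟩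
  have hκ : IsMarkovKernel κ := ⟨fun z => instJ z⟩
  have hDm : Measurable fun z => κ z (Prod.mk z ⁻¹' D) := Kernel.measurable_kernel_prodMk_left hD
  have hr : range c = {z | κ z (Prod.mk z ⁻¹' D) ≠ 0} := by
    ext z
    constructor
    · rintro ⟨x, rfl⟩
      show J (c x) (Prod.mk (c x) ⁻¹' D) ≠ 0
      rw [hcJ, hma x _ (measurable_prodMk_left hD)]
      have h1 : {k : K | e (k⁻¹ • x) ∈ Prod.mk (c x) ⁻¹' D} = univ := by
        refine eq_univ_of_forall fun k => ?_
        refine ⟨mem_range_self _, ?_⟩
        have h2 : c' (e (k⁻¹ • x)) = c (k⁻¹ • x) := congrFun hc' _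
        rw [h2]
        exact ((hiff x (k⁻¹ • x)).2 ⟨k⁻¹, rfl⟩).symm
      rw [h1, measure_univ]
      exact one_ne_zero
    · intro hz
      obtain ⟨r, hr1, hr2⟩ := nonempty_of_measure_ne_zero hz
      obtain ⟨x, rfl⟩ := hr1
      refine ⟨x, ?_⟩
      have h2 : c' (e x) = c x := congrFun hc' _
      rw [← h2]
      exact hr2
  rw [hr]
  exact (hDm (measurableSet_singleton 0)).compl

end Pool.Agent.V8H60.TV
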