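import Mathlib
import Pool.Agent.V8H42.TV.Base

set_option autoImplicit false
set_option linter.unusedSectionVars false

/-!
# Smooth actions of Polish groups

If the orbits of a Borel action of a Polish group are the fibres of a Borel map, then the range of
this map is Borel.
-/

namespace Pool.Agent.V8H60.TV

open Set Filter Topology MeasureTheory
open Pool.Agent.V8H42.TV

/-- intersections of small closed balls -/
def ballList {X : Type} [MetricSpace X] (d : ℕ → X) : List ℕ → Set X
  | [] => univ
  | i :: l => Metric.closedBall (d i) ((1 / 2) ^ l.length) ∩ ballList d l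

/-- the path through the tree of lists that is selected by a family of sets -/
def Path {Z : Type} (R : List ℕ → Set Z) (z : Z) : List ℕ → Prop
  | [] => True
  | i :: l => Path R z l ∧ z ∈ R (i :: l) ∧ ∀ j < i, z ∉ R (j :: l)

theorem ballList_closed {X : Type} [MetricSpace X] (d : ℕ → X) :
    ∀ l, IsClosed (ballList d l)
  | [] => isClosed_univ
  | _ :: l => Metric.isClosed_closedBall.inter (ballList_closed d l)

theorem Path_unique {Z : Type} (R : List ℕ → Set Z) (z : Z) :
    ∀ l l' : List ℕ, l.length = l'.length → Path R z l → Path R z l' → l = l'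
  | [], [], _, _, _ => rfl
  | [], _ :: _, h, _, _ => by simp at h
  | _ :: _, [], h, _, _ => by simp at h
  | i :: l, j :: l', h, h1, h2 => by
    have hl : l = l' := Path_unique R z l l' (by simpa using h) h1.1 h2.1
    subst hl
    rcases lt_trichotomy i j with hij | hij | hij
    · exact absurd h1.2.1 (h2.2.2 i hij)
    · rw [hij]
    · exact absurd h2.2.1 (h1.2.2 j hij)

theorem Path_meas {Z : Type} [MeasurableSpace Z] {R : List ℕ → Set Z}
    (hR : ∀ l, MeasurableSet (R l)) : ∀ l, MeasurableSet {z | Path R z l}
  | [] => by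
    have : {z : Z | Path R z []} = univ := eq_univ_of_forall fun z => trivial
    rw [this]
    exact MeasurableSet.univ
  | i :: l => by
    have h1 : {z : Z | Path R z (i :: l)} = {z | Path R z l} ∩ (R (i :: l) ∩
        ⋂ j ∈ {j | j < i}, (R (j :: l))ᶜ) := by
      ext z
      simp only [mem_inter_iff, mem_iInter, mem_compl_iff, mem_ofPred_eq]
      exact Iff.rfl
    rw [h1]
    exact (Path_meas hR l).inter ((hR _).inter
      (MeasurableSet.biInter (to_countable _) fun j _ => (hR _).compl))

section Aux

variable {N X Z : Type} [TopologicalSpace N] [Group N] [IsTopologicalGroup N] [PolishSpace N]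
  [MeasurableSpace N] [BorelSpace N] [MetricSpace X] [CompleteSpace X]
  [SecondCountableTopology X] [MeasurableSpace X] [BorelSpace X] [MulAction N X]
  [TopologicalSpace Z] [PolishSpace Z] [MeasurableSpace Z] [BorelSpace Z]

theorem range_aux [Nonempty X] (hm : Measurable fun p : N × X => p.1 • p.2) {c : X → Z}
    (hc : Continuous c) (horb : ∀ x y, c x = c y ↔ ∃ n : N, n • x = y) :
    MeasurableSet (range c) := by
  let d : ℕ → X := TopologicalSpace.denseSeq X
  have hd : DenseRange d := TopologicalSpace.denseRange_denseSeq X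
  obtain ⟨β⟩ := exists_base N
  let B : List ℕ → Set X := ballList d
  have hBm : ∀ l, MeasurableSet (B l) := fun l => (ballList_closed d l).measurableSet
  have hTm : ∀ l, MeasurableSet {x : X | NM (univ : Set N) x (B l)} := fun l =>
    meas_NM β hm isOpen_univ (hBm l)
  have hinv : ∀ (l : List ℕ) x y, c x = c y → NM (univ : Set N) x (B l) →
      NM (univ : Set N) y (B l) := by
    intro l x y hxy h
    obtain ⟨n, hn⟩ := (horb y x).1 hxy.symm
    rw [← hn] at h
    exact h.translate (fun v _ => mem_univ _)
  have hsep : ∀ l, ∃ R : Set Z, MeasurableSet R ∧ ∀ x, c x ∈ R ↔ NM (univ : Set N) x (B l) := by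
    intro l
    have h1 : AnalyticSet (c '' {x : X | NM (univ : Set N) x (B l)}) :=
      (hTm l).analyticSet_image hc.measurable
    have h2 : AnalyticSet (c '' {x : X | NM (univ : Set N) x (B l)}ᶜ) :=
      (hTm l).compl.analyticSet_image hc.measurable
    have h3 : Disjoint (c '' {x : X | NM (univ : Set N) x (B l)})
        (c '' {x : X | NM (univ : Set N) x (B l)}ᶜ) := by
      rw [disjoint_left]
      rintro _ ⟨x, hx, rfl⟩ ⟨y, hy, hxy⟩
      exact hy (hinv l x y hxy.symm hx)
    obtain ⟨R, hR1, hR2, hR3⟩ := h1.measurablySeparable h2 h3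
    refine ⟨R, hR3, fun x => ⟨fun hx => ?_, fun hx => hR1 ⟨x, hx, rfl⟩⟩⟩
    by_contra hn
    exact disjoint_left.1 hR2 ⟨x, hn, rfl⟩ hx
  choose R hRm hR using hsep
  let Γ : Set (Z × X) := {p | c p.2 = p.1 ∧ ∀ n : ℕ, ∃ l : List ℕ, l.length = n ∧
    Path R p.1 l ∧ p.2 ∈ B l}
  have hΓm : MeasurableSet Γ := by
    have h1 : Γ = {p : Z × X | c p.2 = p.1} ∩ ⋂ n : ℕ, ⋃ l ∈ {l : List ℕ | l.length = n},
        {p : Z × X | Path R p.1 l} ∩ {p : Z × X | p.2 ∈ B l} := by
      ext p
      simp only [mem_inter_iff, mem_iInter, mem_iUnion, mem_ofPred_eq, exists_prop]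
      exact Iff.rfl
    rw [h1]
    refine MeasurableSet.inter ?_ ?_
    · exact measurableSet_eq_fun (hc.measurable.comp measurable_snd) measurable_fst
    · refine MeasurableSet.iInter fun n => MeasurableSet.biUnion (to_countable _) fun l _ => ?_
      exact (measurable_fst (Path_meas hRm l)).inter (measurable_snd (hBm l))
  have hdist : ∀ (i : ℕ) (l : List ℕ) (x y : X), x ∈ B (i :: l) → y ∈ B (i :: l) →
      dist x y ≤ 2 * (1 / 2) ^ l.length := by
    intro i l x y hx hy
    have h1 : dist x (d i) ≤ (1 / 2) ^ l.length := hx.1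
    have h2 : dist y (d i) ≤ (1 / 2) ^ l.length := hy.1
    calc dist x y ≤ dist x (d i) + dist (d i) y := dist_triangle _ _ _
      _ ≤ (1 / 2) ^ l.length + (1 / 2) ^ l.length := add_le_add h1 (by rwa [dist_comm])
      _ = 2 * (1 / 2) ^ l.length := by ring
  have hlim : Tendsto (fun n : ℕ => 2 * (1 / 2 : ℝ) ^ n) atTop (𝓝 0) := by
    have := (tendsto_pow_atTop_nhds_zero_of_lt_one (r := (1 / 2 : ℝ)) (by norm_num)
      (by norm_num)).const_mul 2
    simpa using this
  have hinj : InjOn Prod.fst Γ := by
    rintro ⟨z, x⟩ ⟨-, h1⟩ ⟨z', y⟩ ⟨-, h2⟩ hz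
    have hz' : z = z' := hz
    subst hz'
    have hxy : dist x y ≤ 0 := by
      refine ge_of_tendsto' hlim fun n => ?_
      obtain ⟨l, hl1, hl2, hl3⟩ := h1 (n + 1)
      obtain ⟨l', hl1', hl2', hl3'⟩ := h2 (n + 1)
      have hll : l = l' := Path_unique R z l l' (hl1.trans hl1'.symm) hl2 hl2'
      subst hll
      cases l with
      | nil => simp at hl1
      | cons i l =>
        have : l.length = n := by simpa using hl1
        rw [← this]
        exact hdist i l x y hl3 hl3'
    rw [dist_le_zero.1 hxy]
  have hex : range c = Prod.fst '' Γ := by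
    ext z
    constructor
    · rintro ⟨x, rfl⟩
      have hstep : ∀ l : List ℕ, NM (univ : Set N) x (B l) → ∃ i, NM (univ : Set N) x (B (i :: l)) := by
        intro l hl
        by_contra hcon
        push Not at hcon
        apply hl
        have h1 : IsMeagre (⋃ i : ℕ, ({n : N | n • x ∈ B (i :: l)} ∩ univ)) :=
          isMeagre_iUnion fun i => by
            have := hcon i
            unfold NM at this
            push Not at this
            exact this
        refine h1.mono ?_
        rintro n ⟨hn, -⟩
        have hn' : n • x ∈ B l := hn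
        obtain ⟨i, hi⟩ := hd.exists_dist_lt (n • x) (ε := (1 / 2 : ℝ) ^ l.length) (by positivity)
        exact mem_iUnion.2 ⟨i, ⟨le_of_lt hi, hn'⟩, mem_univ _⟩
      have hpath : ∀ n : ℕ, ∃ l : List ℕ, l.length = n ∧ Path R (c x) l ∧
          NM (univ : Set N) x (B l) := by
        intro n
        induction n with
        | zero =>
          refine ⟨[], rfl, trivial, ?_⟩
          intro hmg
          have h1 : {n : N | n • x ∈ B []} ∩ univ = univ :=
            eq_univ_of_forall fun n => ⟨trivial, mem_univ _⟩
          rw [h1] at hmg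
          exact not_isMeagre_of_isOpen isOpen_univ ⟨(1 : N), mem_univ _⟩ hmg
        | succ n ih =>
          obtain ⟨l, hl1, hl2, hl3⟩ := ih
          classical
          have h1 := hstep l hl3
          refine ⟨Nat.find h1 :: l, by simp [hl1], ⟨hl2, (hR _ x).2 (Nat.find_spec h1), ?_⟩,
            Nat.find_spec h1⟩
          intro j hj hjR
          exact Nat.find_min h1 hj ((hR _ x).1 hjR)
      choose L hL1 hL2 hL3 using hpath
      have hLs : ∀ n, ∃ i, L (n + 1) = i :: L n := by
        intro n
        cases hl : L (n + 1) with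
        | nil =>
          have := hL1 (n + 1)
          rw [hl] at this
          simp at this
        | cons i l =>
          refine ⟨i, ?_⟩
          have h1 := hL1 (n + 1)
          have h2 := hL2 (n + 1)
          rw [hl] at h1 h2
          have h3 : l = L n := Path_unique R (c x) l (L n) (by
            rw [hL1 n]
            simpa using h1) h2.1 (hL2 n)
          rw [h3]
      have hne : ∀ n, ∃ y ∈ B (L n), c y = c x := by
        intro n
        have h1 : ({m : N | m • x ∈ B (L n)} ∩ univ).Nonempty := by
          rw [nonempty_iff_ne_empty]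
          intro h
          apply hL3 n
          rw [h]
          exact IsMeagre.empty
        obtain ⟨m, hm1, -⟩ := h1
        exact ⟨m • x, hm1, ((horb x (m • x)).2 ⟨m, rfl⟩).symm⟩
      choose y hy1 hy2 using hne
      have hmono : ∀ n m, n ≤ m → B (L m) ⊆ B (L n) := by
        intro n m hnm
        induction m, hnm using Nat.le_induction with
        | base => exact Subset.rfl
        | succ m _ ih =>
          obtain ⟨i, hi⟩ := hLs m
          rw [hi]
          exact inter_subset_right.trans ih
      have hcau : CauchySeq fun n => y (n + 1) := by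
        refine cauchySeq_of_le_tendsto_0' (fun n : ℕ => 2 * (1 / 2 : ℝ) ^ n) (fun n m hnm => ?_) hlim
        obtain ⟨i, hi⟩ := hLs n
        have h1 : y (n + 1) ∈ B (i :: L n) := hi ▸ hy1 (n + 1)
        have h2 : y (m + 1) ∈ B (i :: L n) := hi ▸ hmono (n + 1) (m + 1) (by omega) (hy1 (m + 1))
        have h3 := hdist i (L n) _ _ h1 h2
        rwa [hL1 n] at h3
      obtain ⟨w, hw⟩ := cauchySeq_tendsto_of_complete hcau
      refine ⟨(c x, w), ⟨?_, fun n => ⟨L n, hL1 n, hL2 n, ?_⟩⟩, rfl⟩
      · have h1 : Tendsto (fun n => c (y (n + 1))) atTop (𝓝 (c w)) := (hc.tendsto w).comp hw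
        have h2 : (fun n => c (y (n + 1))) = fun _ => c x := funext fun n => hy2 (n + 1)
        rw [h2] at h1
        exact (tendsto_nhds_unique h1 tendsto_const_nhds)
      · refine (ballList_closed d (L n)).mem_of_tendsto hw ?_
        filter_upwards [eventually_ge_atTop n] with m hm'
        exact hmono n (m + 1) (by omega) (hy1 (m + 1))
    · rintro ⟨⟨z', x⟩, ⟨h1, -⟩, rfl⟩
      exact ⟨x, h1⟩
  rw [hex]
  exact hΓm.image_of_measurable_injOn measurable_fst hinj

end Aux

/-- If the orbits of a Borel action of a Polish group are the fibres of a Borel map `c`, then the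
range of `c` is Borel. -/
theorem range_borel {N X Z : Type} [TopologicalSpace N] [Group N] [IsTopologicalGroup N]
    [PolishSpace N] [MeasurableSpace N] [BorelSpace N] [MeasurableSpace X] [StandardBorelSpace X]
    [MulAction N X] [MeasurableSpace Z] [StandardBorelSpace Z]
    (hm : Measurable fun p : N × X => p.1 • p.2) {c : X → Z} (hc : Measurable c)
    (horb : ∀ x y, c x = c y ↔ ∃ n : N, n • x = y) : MeasurableSet (range c) := by
  rcases isEmpty_or_nonempty X with hX | hX
  · rw [range_eq_empty]
    exact MeasurableSet.empty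
  let _ := upgradeStandardBorel Z
  obtain ⟨t, hb0, hp0⟩ := (inferInstance : StandardBorelSpace X).polish
  obtain ⟨t', hle, hct, hp⟩ := hc.exists_continuous
  have hb : @BorelSpace X t' _ := by
    refine @BorelSpace.mk X t' _ ?_
    rw [hb0.measurable_eq]
    exact (borel_eq_borel_of_le hp hp0 hle).symm
  clear hle hb0 hp0
  exact @range_aux N X Z _ _ _ _ _ _
    (@TopologicalSpace.upgradeIsCompletelyMetrizable X t' _).toMetricSpace _ _ _ hb _ _ _ _ _ _ hm c hct horb

end Pool.Agent.V8H60.TV
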