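import Mathlib
import Pool.Agent.H579R3.SB
import Pool.Agent.H566W.Ana
import Pool.Agent.V8H42.TV.Approx
import Pool.Agent.V8H60.TV.Code
import Pool.Agent.V8H60.TV.Range

set_option autoImplicit false
set_option linter.unusedSectionVars false

/-!
# Quotients by smooth normal subgroups
-/

namespace Pool.Agent.V8H60.TV

open Set Filter Topology MeasureTheory
open Function (Surjective Injective)

/-- The dichotomy for an action: there are countably many orbits, or there is a Borel map from the
Cantor space that sends distinct points to distinct orbits. -/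
def Dich (G X : Type) [Group G] [MeasurableSpace X] [MulAction G X] : Prop :=
  Countable (Quotient (MulAction.orbitRel G X)) ∨
    ∃ f : (ℕ → Bool) → X, Measurable f ∧ ∀ x y : ℕ → Bool, x ≠ y → ¬ ∃ g : G, g • f x = f y

theorem not_countable_cantor : ¬ Countable (ℕ → Bool) := by
  intro h
  obtain ⟨g, hg⟩ := exists_surjective_nat (ℕ → Bool)
  obtain ⟨n, hn⟩ := hg fun n => !(g n n)
  have := congrFun hn n
  simp at this

theorem countable_orbits_iff {G X : Type} [Group G] [MulAction G X] :
    Countable (Quotient (MulAction.orbitRel G X)) ↔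
      ∃ S : Set X, S.Countable ∧ ∀ x, ∃ s ∈ S, ∃ g : G, g • s = x := by
  constructor
  · intro h
    refine ⟨range (Quotient.out : Quotient (MulAction.orbitRel G X) → X),
      countable_range _, fun x => ⟨_, ⟨Quotient.mk _ x, rfl⟩, ?_⟩⟩
    have h1 : (MulAction.orbitRel G X).r x (Quotient.mk (MulAction.orbitRel G X) x).out :=
      Quotient.exact (Quotient.out_eq (Quotient.mk (MulAction.orbitRel G X) x)).symm
    obtain ⟨g, hg⟩ := h1
    exact ⟨g, hg⟩
  · rintro ⟨S, hS, hS2⟩
    refine countable_univ_iff.1 ((hS.image (Quotient.mk (MulAction.orbitRel G X))).mono ?_)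
    intro o _
    obtain ⟨x, rfl⟩ := Quotient.exists_rep o
    obtain ⟨s, hs, g, hg⟩ := hS2 x
    refine ⟨s, hs, (Quotient.sound ?_).symm⟩
    exact ⟨g, hg⟩

/-- Perfect sets can be lifted along Borel maps. -/
theorem perfect_lift {X Y : Type} [MeasurableSpace X] [StandardBorelSpace X] [MeasurableSpace Y]
    [StandardBorelSpace Y] {ρ : X → Y} (hρ : Measurable ρ) {f : (ℕ → Bool) → Y}
    (hf : Measurable f) (hinj : Injective f) (hfr : ∀ a, ∃ x, ρ x = f a) :
    ∃ h : (ℕ → Bool) → X, Measurable h ∧ (∀ b, ∃ a, ρ (h b) = f a) ∧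
      ∀ b b', b ≠ b' → ρ (h b) ≠ ρ (h b') := by
  let _ := upgradeStandardBorel X
  have hps : PolishSpace (ℕ → Bool) := {}
  have hA : MeasurableSet (ρ ⁻¹' range f) := hρ (hf.measurableEmbedding hinj).measurableSet_range
  have hE : MeasurableSet {r : X × X | ρ r.1 = ρ r.2} :=
    measurableSet_eq_fun (hρ.comp measurable_fst) (hρ.comp measurable_snd)
  rcases Pool.Agent.H579R3.SV.silver (E := fun x y => ρ x = ρ y)
    ⟨fun _ => rfl, fun h => h.symm, fun h h' => h.trans h'⟩ hE hA.analyticSet with
    ⟨S, -, hSc, hS2⟩ | ⟨h, h1, h2, h3⟩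
  · exfalso
    have hr : range f ⊆ ρ '' S := by
      rintro _ ⟨a, rfl⟩
      obtain ⟨x, hx⟩ := hfr a
      obtain ⟨y, hy, hxy⟩ := hS2 x ⟨a, hx.symm⟩
      exact ⟨y, hy, hxy.symm.trans hx⟩
    have hrc : (range f).Countable := (hSc.image ρ).mono hr
    have hpc : (f ⁻¹' range f).Countable := hrc.preimage_of_injOn hinj.injOn
    have hpu : f ⁻¹' range f = univ := eq_univ_of_forall fun a => mem_range_self a
    rw [hpu] at hpc
    exact not_countable_cantor (countable_univ_iff.1 hpc)
  · refine ⟨h, h1.measurable, fun b => ?_, fun b b' hb hc => h3 b b' hb hc⟩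
    obtain ⟨a, ha⟩ := h2 b
    exact ⟨a, ha.symm⟩

/-- The dichotomy for a quotient of an action. -/
theorem dich_quot {G L X Y : Type} [Group G] [Group L] [MeasurableSpace X] [StandardBorelSpace X]
    [MeasurableSpace Y] [StandardBorelSpace Y] [MulAction G X] [MulAction L Y] {q : G → L}
    (hq : Surjective q) {p : X → Y} (hp : Measurable p) (hps : Surjective p)
    (heq : ∀ g x, p (g • x) = q g • p x) (hfib : ∀ x y, p x = p y → ∃ g : G, g • x = y) :
    Dich G X ↔ Dich L Y := by
  constructor
  · rintro (h | ⟨f, hf, hf2⟩)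
    · left
      rw [countable_orbits_iff] at h ⊢
      obtain ⟨S, hS, hS2⟩ := h
      refine ⟨p '' S, hS.image p, fun y => ?_⟩
      obtain ⟨x, rfl⟩ := hps y
      obtain ⟨s, hs, g, rfl⟩ := hS2 x
      exact ⟨p s, ⟨s, hs, rfl⟩, q g, (heq g s).symm⟩
    · right
      refine ⟨fun a => p (f a), hp.comp hf, fun a b hab => ?_⟩
      rintro ⟨l, hl⟩
      obtain ⟨g, rfl⟩ := hq l
      rw [← heq] at hl
      obtain ⟨g', hg'⟩ := hfib _ _ hl
      exact hf2 a b hab ⟨g' * g, by rw [mul_smul, hg']⟩
  · rintro (h | ⟨f, hf, hf2⟩)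
    · left
      rw [countable_orbits_iff] at h ⊢
      obtain ⟨S, hS, hS2⟩ := h
      refine ⟨Function.surjInv hps '' S, hS.image _, fun x => ?_⟩
      obtain ⟨s, hs, l, hl⟩ := hS2 (p x)
      obtain ⟨g, rfl⟩ := hq l
      have h1 : p (g • Function.surjInv hps s) = p x := by
        rw [heq, Function.surjInv_eq hps s, hl]
      obtain ⟨g', hg'⟩ := hfib _ _ h1
      exact ⟨_, ⟨s, hs, rfl⟩, g' * g, by rw [mul_smul, hg']⟩
    · right
      have hinj : Injective f := by
        intro a b hab
        by_contra hne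
        exact hf2 a b hne ⟨1, by rw [one_smul, hab]⟩
      obtain ⟨h, h1, h2, h3⟩ := perfect_lift hp hf hinj fun a => hps (f a)
      refine ⟨h, h1, fun b b' hb => ?_⟩
      rintro ⟨g, hg⟩
      obtain ⟨a, ha⟩ := h2 b
      obtain ⟨a', ha'⟩ := h2 b'
      have hne : a ≠ a' := by
        rintro rfl
        exact h3 b b' hb (ha.trans ha'.symm)
      refine hf2 a a' hne ⟨q g, ?_⟩
      rw [← ha, ← ha', ← heq, hg]

/-- The orbit space of a normal subgroup that acts smoothly is a standard Borel space on which the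
quotient group acts in a Borel way. -/
theorem exists_quot {G L X Z : Type} [TopologicalSpace G] [Group G] [IsTopologicalGroup G]
    [PolishSpace G] [MeasurableSpace G] [BorelSpace G] [TopologicalSpace L] [Group L]
    [IsTopologicalGroup L] [PolishSpace L] [MeasurableSpace L] [BorelSpace L] [MeasurableSpace X]
    [StandardBorelSpace X] [MulAction G X] [MeasurableSMul₂ G X] [MeasurableSpace Z]
    [StandardBorelSpace Z] (q : G →* L) (hq : Continuous q) (hqs : Surjective q) (c : X → Z)
    (hc : Measurable c) (horb : ∀ x y, c x = c y ↔ ∃ n ∈ q.ker, n • x = y) :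
    ∃ (Y : Type) (_ : MeasurableSpace Y) (_ : StandardBorelSpace Y) (_ : MulAction L Y)
      (_ : MeasurableSMul₂ L Y) (p : X → Y), Measurable p ∧ Surjective p ∧
      (∀ g x, p (g • x) = q g • p x) ∧ ∀ x y, p x = p y ↔ ∃ n ∈ q.ker, n • x = y := by
  have hm : Measurable fun r : G × X => r.1 • r.2 := measurable_smul
  have hcl : IsClosed (q.ker : Set G) := isClosed_singleton.preimage hq
  have hpk : PolishSpace q.ker := hcl.polishSpace
  have hmk : Measurable fun r : q.ker × X => r.1 • r.2 :=
    hm.comp ((measurable_subtype_coe.comp measurable_fst).prodMk measurable_snd)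
  have hr : MeasurableSet (range c) := by
    refine range_borel (N := q.ker) hmk hc fun x y => ?_
    rw [horb x y]
    constructor
    · rintro ⟨n, hn, h⟩
      exact ⟨⟨n, hn⟩, h⟩
    · rintro ⟨n, h⟩
      exact ⟨n, n.2, h⟩
  let Y : Type := range c
  have hY : StandardBorelSpace (range c) := hr.standardBorel
  let p : X → range c := fun x => ⟨c x, mem_range_self x⟩
  have hp : Measurable p := hc.subtype_mk
  have hps : Surjective p := by
    rintro ⟨_, x, rfl⟩
    exact ⟨x, rfl⟩
  have hpo : ∀ x y, p x = p y ↔ ∃ n ∈ q.ker, n • x = y := by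
    intro x y
    rw [← horb x y]
    exact Subtype.ext_iff
  have hwell : ∀ (g g' : G) (x x' : X), q g = q g' → p x = p x' → p (g • x) = p (g' • x') := by
    intro g g' x x' hg hx
    obtain ⟨n, hn, rfl⟩ := (hpo x x').1 hx
    rw [hpo]
    refine ⟨g' * n * g⁻¹, ?_, ?_⟩
    · rw [MonoidHom.mem_ker] at hn ⊢
      rw [map_mul, map_mul, hn, mul_one, map_inv, hg, mul_inv_cancel]
    · rw [mul_smul, mul_smul, inv_smul_smul]
  let sm : L → range c → range c := fun l y => p (Function.surjInv hqs l • Function.surjInv hps y)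
  have hsm : ∀ g x, sm (q g) (p x) = p (g • x) := fun g x =>
    hwell _ _ _ _ (Function.surjInv_eq hqs (q g)) (Function.surjInv_eq hps (p x))
  let act : MulAction L (range c) :=
    { smul := sm
      one_smul := by
        intro y
        obtain ⟨x, rfl⟩ := hps y
        show sm 1 (p x) = p x
        rw [← map_one q, hsm, one_smul]
      mul_smul := by
        intro l l' y
        obtain ⟨x, rfl⟩ := hps y
        obtain ⟨g, rfl⟩ := hqs l
        obtain ⟨g', rfl⟩ := hqs l'
        show sm (q g * q g') (p x) = sm (q g) (sm (q g') (p x))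
        rw [← map_mul, hsm (g * g') x, hsm g' x, hsm g (g' • x), mul_smul] }
  have hms : Measurable fun r : L × range c => sm r.1 r.2 := by
    let F : G × X → L × range c := fun r => (q r.1, p r.2)
    have hF : Measurable F := (hq.measurable.comp measurable_fst).prodMk (hp.comp measurable_snd)
    have hFs : Surjective F := by
      rintro ⟨l, y⟩
      obtain ⟨x, rfl⟩ := hps y
      obtain ⟨g, rfl⟩ := hqs l
      exact ⟨(g, x), rfl⟩
    rw [← hF.measurable_comp_iff_of_surjective hFs]
    have h1 : (fun r : L × range c => sm r.1 r.2) ∘ F = fun r : G × X => p (r.1 • r.2) :=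
      funext fun r => hsm r.1 r.2
    rw [h1]
    exact hp.comp hm
  exact ⟨range c, inferInstance, hY, act, ⟨hms⟩, p, hp, hps, fun g x => (hsm g x).symm, hpo⟩

end Pool.Agent.V8H60.TV
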