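import Mathlib
import Pool.Agent.V8H60.TV.Quot

set_option autoImplicit false
set_option linter.unusedSectionVars false

/-!
# Open subgroups
-/

namespace Pool.Agent.V8H60.TV

open Set Filter Topology MeasureTheory
open Function (Surjective Injective)

/-- A perfect set of points that meets every orbit in a countable set contains a perfect set of
inequivalent points. -/
theorem perfect_of_countable {G X : Type} [TopologicalSpace G] [Group G] [PolishSpace G]
    [MeasurableSpace G] [BorelSpace G] [MeasurableSpace X] [StandardBorelSpace X]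
    [MulAction G X] (hm : Measurable fun p : G × X => p.1 • p.2) {f : (ℕ → Bool) → X}
    (hf : Measurable f) (hcount : ∀ b, {b' | ∃ g : G, g • f b = f b'}.Countable) :
    ∃ c : (ℕ → Bool) → (ℕ → Bool), Continuous c ∧
      ∀ a b, a ≠ b → ¬ ∃ g : G, g • f (c a) = f (c b) := by
  have hana : AnalyticSet {p : (ℕ → Bool) × (ℕ → Bool) | ∃ g : G, g • f p.1 = f p.2} := by
    let _ := upgradeStandardBorel X
    have _ : PolishSpace (ℕ → Bool) := {}
    have h1 : MeasurableSet {q : G × ((ℕ → Bool) × (ℕ → Bool)) | q.1 • f q.2.1 = f q.2.2} := by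
      apply measurableSet_eq_fun
      · exact hm.comp (measurable_fst.prodMk (hf.comp (measurable_fst.comp measurable_snd)))
      · exact hf.comp (measurable_snd.comp measurable_snd)
    have h2 := h1.analyticSet.image_of_continuous (continuous_snd (X := G))
    have h3 : Prod.snd '' {q : G × ((ℕ → Bool) × (ℕ → Bool)) | q.1 • f q.2.1 = f q.2.2} =
        {p : (ℕ → Bool) × (ℕ → Bool) | ∃ g : G, g • f p.1 = f p.2} := by
      ext p
      constructor
      · rintro ⟨⟨g, p'⟩, hg, rfl⟩
        exact ⟨g, hg⟩
      · rintro ⟨g, hg⟩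
        exact ⟨(g, p), hg, rfl⟩
    rwa [h3] at h2
  exact Pool.Agent.H566W.perfect_independent
    (fun b b' => ∃ g : G, g • f b = f b') hana hcount

/-- A perfect set of points that are inequivalent for an open subgroup contains a perfect set of
points that are inequivalent for the group. -/
theorem perfect_up {G X : Type} [TopologicalSpace G] [Group G] [IsTopologicalGroup G]
    [PolishSpace G] [MeasurableSpace G] [BorelSpace G] [MeasurableSpace X] [StandardBorelSpace X]
    [MulAction G X] (hm : Measurable fun p : G × X => p.1 • p.2) {V : Subgroup G}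
    (hV : IsOpen (V : Set G)) {f : (ℕ → Bool) → X} (hf : Measurable f)
    (h : ∀ a b, a ≠ b → ¬ ∃ v ∈ V, v • f a = f b) :
    ∃ c : (ℕ → Bool) → (ℕ → Bool), Continuous c ∧
      ∀ a b, a ≠ b → ¬ ∃ g : G, g • f (c a) = f (c b) := by
  obtain ⟨ν⟩ := Pool.Agent.V8H42.TV.exists_nb G
  obtain ⟨m, hmV⟩ := ν.base V hV V.one_mem
  refine perfect_of_countable hm hf fun b => ?_
  choose γ hγ using fun b' : {b' | ∃ g : G, g • f b = f b'} => b'.2
  refine Pool.Agent.V8H42.TV.countable_of_far ν m
    (S := {b' | ∃ g : G, g • f b = f b'}) γ fun a c hac hmem => ?_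
  refine h c a (fun e => hac (Subtype.ext e).symm) ⟨γ a * (γ c)⁻¹, hmV hmem, ?_⟩
  rw [mul_smul, ← hγ c, inv_smul_smul, hγ a]

/-- An orbit is a union of countably many orbits of an open subgroup. -/
theorem countable_index {G X : Type} [TopologicalSpace G] [Group G] [IsTopologicalGroup G]
    [PolishSpace G] [MulAction G X] {V : Subgroup G} (hV : IsOpen (V : Set G)) (x : X) :
    ∃ C : Set X, C.Countable ∧ (∀ z ∈ C, ∃ g : G, g • x = z) ∧
      ∀ y, (∃ g : G, g • x = y) → ∃ z ∈ C, ∃ v ∈ V, v • z = y := by
  let d : ℕ → G := TopologicalSpace.denseSeq G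
  have hd : DenseRange d := TopologicalSpace.denseRange_denseSeq _
  refine ⟨range fun n => d n • x, countable_range _, ?_, ?_⟩
  · rintro _ ⟨n, rfl⟩
    exact ⟨d n, rfl⟩
  · rintro _ ⟨g, rfl⟩
    obtain ⟨n, hn⟩ := hd.exists_mem_open (s := {h : G | g * h⁻¹ ∈ V})
      (hV.preimage (continuous_const.mul continuous_inv)) ⟨g, by
        show g * g⁻¹ ∈ V
        rw [mul_inv_cancel]
        exact V.one_mem⟩
    refine ⟨_, ⟨n, rfl⟩, g * (d n)⁻¹, hn, ?_⟩
    rw [mul_smul, inv_smul_smul]

/-- The dichotomy passes from an open subgroup to the group. -/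
theorem dich_up {G X : Type} [TopologicalSpace G] [Group G] [IsTopologicalGroup G]
    [PolishSpace G] [MeasurableSpace G] [BorelSpace G] [MeasurableSpace X] [StandardBorelSpace X]
    [MulAction G X] (hm : Measurable fun p : G × X => p.1 • p.2) {V : Subgroup G}
    (hV : IsOpen (V : Set G)) (h : Dich V X) : Dich G X := by
  rcases h with h | ⟨f, hf, hf2⟩
  · left
    rw [countable_orbits_iff] at h ⊢
    obtain ⟨S, hS, hS2⟩ := h
    refine ⟨S, hS, fun x => ?_⟩
    obtain ⟨s, hs, v, hv⟩ := hS2 x
    exact ⟨s, hs, v, hv⟩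
  · right
    obtain ⟨c, hc, hc2⟩ := perfect_up hm hV hf fun a b hab ⟨v, hv, hva⟩ =>
      hf2 a b hab ⟨⟨v, hv⟩, hva⟩
    exact ⟨fun a => f (c a), hf.comp hc.measurable, hc2⟩

/-- The topological Vaught conjecture for a group: the dichotomy for all Borel actions on standard
Borel spaces. -/
def TVC (G : Type) [Group G] [MeasurableSpace G] : Prop :=
  ∀ (X : Type) [MeasurableSpace X] [StandardBorelSpace X] [MulAction G X] [MeasurableSMul₂ G X],
    Dich G X

section Induced

variable {G : Type} [TopologicalSpace G] [Group G] [IsTopologicalGroup G] [PolishSpace G]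
  [MeasurableSpace G] [BorelSpace G]

/-- the set of left cosets -/
def Cos (V : Subgroup G) : Type := G ⧸ V

instance instMSCos (V : Subgroup G) : MeasurableSpace (Cos V) := ⊤

instance instDCos (V : Subgroup G) : DiscreteMeasurableSpace (Cos V) := ⟨fun _ => trivial⟩

instance instActCos (V : Subgroup G) : MulAction G (Cos V) :=
  inferInstanceAs (MulAction G (G ⧸ V))

/-- the coset of an element -/
def cmk (V : Subgroup G) (g : G) : Cos V := (QuotientGroup.mk g : G ⧸ V)

/-- a representative of a coset -/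
noncomputable def rep {V : Subgroup G} (c : Cos V) : G := Quotient.out (s := QuotientGroup.leftRel V) c

theorem cmk_rep {V : Subgroup G} (c : Cos V) : cmk V (rep c) = c :=
  Quotient.out_eq (s := QuotientGroup.leftRel V) c

theorem smul_cmk {V : Subgroup G} (g h : G) : g • cmk V h = cmk V (g * h) := rfl

theorem cmk_eq {V : Subgroup G} (g h : G) : cmk V g = cmk V h ↔ g⁻¹ * h ∈ V :=
  QuotientGroup.eq

theorem countable_cos {V : Subgroup G} (hV : IsOpen (V : Set G)) : Countable (Cos V) := by
  have hd : DiscreteTopology (G ⧸ V) := QuotientGroup.discreteTopology hV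
  have hs : TopologicalSpace.SeparableSpace (G ⧸ V) :=
    (QuotientGroup.mk_surjective (s := V)).denseRange.separableSpace QuotientGroup.continuous_mk
  exact (TopologicalSpace.separableSpace_iff_countable (α := G ⧸ V)).1 hs

/-- the cocycle of the induced action -/
noncomputable def coc {V : Subgroup G} (g : G) (c : Cos V) : V :=
  ⟨(rep (g • c))⁻¹ * (g * rep c), by
    rw [← cmk_eq, cmk_rep, ← smul_cmk, cmk_rep]⟩

/-- the space of the induced action -/
def Ind (V : Subgroup G) (X : Type) : Type := Cos V × X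

/-- a point of the space of the induced action -/
def mkI {V : Subgroup G} {X : Type} (c : Cos V) (x : X) : Ind V X := (c, x)

instance instMSInd (V : Subgroup G) (X : Type) [MeasurableSpace X] : MeasurableSpace (Ind V X) :=
  inferInstanceAs (MeasurableSpace (Cos V × X))

/-- the induced action -/
noncomputable instance instActInd (V : Subgroup G) (X : Type) [MulAction V X] :
    MulAction G (Ind V X) where
  smul g y := (g • y.1, coc g y.1 • y.2)
  one_smul y := by
    obtain ⟨c, x⟩ := y
    show ((1 : G) • c, coc (1 : G) c • x) = (c, x)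
    have h1 : coc (1 : G) c = 1 := by
      apply Subtype.ext
      show (rep ((1 : G) • c))⁻¹ * (1 * rep c) = 1
      rw [one_smul, one_mul, inv_mul_cancel]
    rw [h1, one_smul, one_smul]
  mul_smul g h y := by
    obtain ⟨c, x⟩ := y
    show ((g * h) • c, coc (g * h) c • x) = (g • h • c, coc g (h • c) • coc h c • x)
    have h1 : coc (g * h) c = coc g (h • c) * coc h c := by
      apply Subtype.ext
      show (rep ((g * h) • c))⁻¹ * (g * h * rep c) =
        (rep (g • h • c))⁻¹ * (g * rep (h • c)) * ((rep (h • c))⁻¹ * (h * rep c))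
      rw [mul_smul]
      group
    rw [h1, mul_smul, mul_smul]

theorem smul_ind {V : Subgroup G} {X : Type} [MulAction V X] (g : G) (c : Cos V) (x : X) :
    g • mkI c x = mkI (g • c) (coc g c • x) := rfl

theorem meas_ind {V : Subgroup G} (hV : IsOpen (V : Set G)) {X : Type} [MeasurableSpace X]
    [MulAction V X] (hm : Measurable fun p : V × X => p.1 • p.2) :
    Measurable fun p : G × Ind V X => p.1 • p.2 := by
  have hc : Countable (Cos V) := countable_cos hV
  have hg : ∀ c : Cos V, Measurable fun g : G => g • c := by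
    intro c
    refine measurable_to_countable' fun d => ?_
    have h1 : (fun g : G => g • c) ⁻¹' {d} = {g : G | (g * rep c)⁻¹ * rep d ∈ V} := by
      ext g
      show g • c = d ↔ (g * rep c)⁻¹ * rep d ∈ V
      rw [← cmk_eq, ← smul_cmk, cmk_rep, cmk_rep]
    rw [h1]
    have h2 : Continuous fun g : G => (g * rep c)⁻¹ * rep d :=
      ((continuous_id.mul continuous_const).inv).mul continuous_const
    exact (hV.preimage h2).measurableSet
  have hco : ∀ c : Cos V, Measurable fun g : G => coc g c := by
    intro c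
    refine Measurable.subtype_mk ?_
    exact (((measurable_of_countable fun d : Cos V => (rep d)⁻¹).comp (hg c)).mul
      (measurable_id.mul measurable_const))
  let F : Cos V × (G × X) → Cos V × X := fun r => (r.2.1 • r.1, coc r.2.1 r.1 • r.2.2)
  have hF : Measurable F := by
    refine measurable_from_prod_countable_right fun c => ?_
    refine Measurable.prodMk ((hg c).comp measurable_fst) ?_
    exact hm.comp (((hco c).comp measurable_fst).prodMk measurable_snd)
  have hperm : Measurable fun p : G × (Cos V × X) => (p.2.1, (p.1, p.2.2)) :=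
    (measurable_fst.comp measurable_snd).prodMk
      (measurable_fst.prodMk (measurable_snd.comp measurable_snd))
  exact hF.comp hperm

/-- The topological Vaught conjecture passes to open subgroups. -/
theorem tvc_down {V : Subgroup G} (hV : IsOpen (V : Set G)) (h : TVC G) : TVC V := by
  intro X _ _ _ _
  have hc : Countable (Cos V) := countable_cos hV
  have hmV : Measurable fun p : V × X => p.1 • p.2 := measurable_smul
  have hmI := meas_ind hV hmV
  have _ : StandardBorelSpace (Ind V X) := inferInstanceAs (StandardBorelSpace (Cos V × X))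
  have _ : MeasurableSMul₂ G (Ind V X) := ⟨hmI⟩
  -- the base coset
  let c₀ : Cos V := cmk V 1
  have hback : ∀ c : Cos V, (rep c)⁻¹ • c = c₀ := by
    intro c
    conv_lhs => rw [← cmk_rep c]
    rw [smul_cmk]
    show cmk V ((rep (cmk V (rep c)))⁻¹ * rep c) = cmk V 1
    rw [cmk_rep, inv_mul_cancel]
  let τ : Ind V X → X := fun y => ((rep y.1)⁻¹ • y).2
  have hτ : ∀ y : Ind V X, (rep y.1)⁻¹ • y = mkI c₀ (τ y) := by
    rintro ⟨c, x⟩
    show ((rep c)⁻¹ • c, _) = (c₀, _)
    rw [hback c]
    rfl
  have hτm : Measurable τ := by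
    have h1 : Measurable fun y : Ind V X => (rep y.1)⁻¹ • y := by
      refine hmI.comp (Measurable.prodMk ?_ measurable_id)
      exact (measurable_of_countable fun d : Cos V => (rep d)⁻¹).comp
        (measurable_fst (α := Cos V) (β := X))
    exact (measurable_snd (α := Cos V) (β := X)).comp h1
  have h0 : ∀ x x' : X, (∃ v : V, v • x = x') ↔
      ∃ g : G, g • mkI c₀ x = mkI c₀ x' := by
    intro x x'
    constructor
    · rintro ⟨v, rfl⟩
      refine ⟨rep c₀ * v * (rep c₀)⁻¹, ?_⟩
      have h1 : (rep c₀ * v * (rep c₀)⁻¹) • c₀ = c₀ := by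
        conv_lhs => rw [← cmk_rep c₀]
        rw [smul_cmk]
        conv_rhs => rw [← cmk_rep c₀]
        rw [cmk_eq, cmk_rep]
        have : (rep c₀ * ↑v * (rep c₀)⁻¹ * rep c₀)⁻¹ * rep c₀ = ((v⁻¹ : V) : G) := by
          rw [Subgroup.coe_inv]
          group
        rw [this]
        exact (v⁻¹).2
      have h2 : coc (rep c₀ * v * (rep c₀)⁻¹) c₀ = v := by
        apply Subtype.ext
        show (rep ((rep c₀ * v * (rep c₀)⁻¹) • c₀))⁻¹ * (rep c₀ * v * (rep c₀)⁻¹ * rep c₀) = v
        rw [h1]
        group
      rw [smul_ind, h1, h2]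
    · rintro ⟨g, hg⟩
      rw [smul_ind] at hg
      exact ⟨coc g c₀, congrArg Prod.snd hg⟩
  have hequiv : ∀ y y' : Ind V X, (∃ v : V, v • τ y = τ y') ↔ ∃ g : G, g • y = y' := by
    intro y y'
    rw [h0, ← hτ, ← hτ]
    constructor
    · rintro ⟨g, hg⟩
      refine ⟨rep y'.1 * g * (rep y.1)⁻¹, ?_⟩
      rw [mul_smul, mul_smul, hg, smul_inv_smul]
    · rintro ⟨g, rfl⟩
      refine ⟨(rep (g • y).1)⁻¹ * g * rep y.1, ?_⟩
      rw [mul_smul, mul_smul, smul_inv_smul]
  rcases h (Ind V X) with h | ⟨f, hf, hf2⟩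
  · left
    rw [countable_orbits_iff] at h ⊢
    obtain ⟨S, hS, hS2⟩ := h
    refine ⟨τ '' S, hS.image τ, fun x => ?_⟩
    obtain ⟨s, hs, g, hg⟩ := hS2 (mkI c₀ x)
    obtain ⟨v, hv⟩ := (hequiv s (mkI c₀ x)).2 ⟨g, hg⟩
    obtain ⟨v', hv'⟩ := (h0 x (τ (mkI c₀ x))).2 ⟨(rep c₀)⁻¹, hτ (mkI c₀ x)⟩
    refine ⟨τ s, ⟨s, hs, rfl⟩, v'⁻¹ * v, ?_⟩
    rw [mul_smul, hv, ← hv', inv_smul_smul]
  · right
    refine ⟨fun a => τ (f a), hτm.comp hf, fun a b hab hv => ?_⟩
    exact hf2 a b hab ((hequiv _ _).1 hv)

end Induced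

end Pool.Agent.V8H60.TV
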