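import Mathlib

set_option autoImplicit false
set_option linter.unusedSectionVars false

/-!
# Countably many test functions on a locally compact Polish space
-/

namespace Pool.Agent.V8H60.TV

open Set Filter Topology MeasureTheory

/-- the functions which approximate the indicator function of an open set from below -/
noncomputable def bump {H : Type} [MetricSpace H] (U : Set H) (m : ℕ) (t : H) : ℝ :=
  1 - (thickenedIndicator (δ := 1 / ((m : ℝ) + 1)) (by positivity) Uᶜ t : ℝ)

theorem bump_cont {H : Type} [MetricSpace H] (U : Set H) (m : ℕ) : Continuous (bump U m) :=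
  continuous_const.sub (NNReal.continuous_coe.comp (thickenedIndicator _ _).continuous)

theorem bump_range {H : Type} [MetricSpace H] (U : Set H) (m : ℕ) (t : H) :
    0 ≤ bump U m t ∧ bump U m t ≤ 1 := by
  have h1 : thickenedIndicator (δ := 1 / ((m : ℝ) + 1)) (by positivity) Uᶜ t ≤ 1 :=
    thickenedIndicator_le_one _ _ _
  have h2 : (thickenedIndicator (δ := 1 / ((m : ℝ) + 1)) (by positivity) Uᶜ t : ℝ) ≤ 1 := by
    exact_mod_cast h1
  unfold bump
  constructor
  · linarith
  · linarith [NNReal.coe_nonneg (thickenedIndicator (δ := 1 / ((m : ℝ) + 1)) (by positivity) Uᶜ t)]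

theorem bump_zero {H : Type} [MetricSpace H] (U : Set H) (m : ℕ) {t : H} (ht : t ∉ U) :
    bump U m t = 0 := by
  unfold bump
  rw [thickenedIndicator_one _ _ (show t ∈ Uᶜ from ht)]
  simp

theorem bump_tendsto {H : Type} [MetricSpace H] {U : Set H} (hU : IsOpen U) (t : H) :
    Tendsto (fun m => bump U m t) atTop (𝓝 (U.indicator 1 t)) := by
  have h1 := thickenedIndicator_tendsto_indicator_closure (δseq := fun m : ℕ => 1 / ((m : ℝ) + 1))
    (fun m => by positivity) tendsto_one_div_add_atTop_nhds_zero_nat Uᶜ
  rw [tendsto_pi_nhds] at h1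
  have h2 := (NNReal.tendsto_coe.2 (h1 t)).const_sub 1
  rw [hU.isClosed_compl.closure_eq] at h2
  have h3 : U.indicator (1 : H → ℝ) t =
      1 - ((Uᶜ.indicator (fun _ => (1 : NNReal)) t : NNReal) : ℝ) := by
    by_cases ht : t ∈ U
    · rw [indicator_of_mem ht, indicator_of_notMem (show t ∉ Uᶜ from fun h => h ht)]
      simp
    · rw [indicator_of_notMem ht, indicator_of_mem (show t ∈ Uᶜ from ht)]
      simp
  rw [h3]
  exact h2

theorem bump_support {H : Type} [MetricSpace H] {U : Set H} (hU : IsCompact (closure U)) (m : ℕ) :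
    HasCompactSupport (bump U m) := by
  refine HasCompactSupport.of_support_subset_isCompact hU ?_
  intro t ht
  by_contra hn
  exact ht (bump_zero U m fun h => hn (subset_closure h))

/-- Countably many continuous functions with compact support which determine the measurable sets
up to measure zero, and the closed sets. -/
theorem exists_testFun (H : Type) [TopologicalSpace H] [PolishSpace H] [LocallyCompactSpace H]
    [MeasurableSpace H] [BorelSpace H] : ∃ φ : ℕ → H → ℝ, (∀ k, Continuous (φ k)) ∧
      (∀ k, HasCompactSupport (φ k)) ∧ (∀ k t, 0 ≤ φ k t ∧ φ k t ≤ 1) ∧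
      (∀ U, IsOpen U → ∀ t ∈ U, ∃ k, 0 < φ k t ∧ ∀ s ∉ U, φ k s = 0) ∧
      ∀ (μ : Measure H) [IsFiniteMeasureOnCompacts μ] (B B' : Set H), MeasurableSet B →
        MeasurableSet B' → (∀ k, ∫ t in B, φ k t ∂μ = ∫ t in B', φ k t ∂μ) → B =ᵐ[μ] B' := by
  let _ := TopologicalSpace.upgradeIsCompletelyMetrizable H
  -- a countable basis of relatively compact open sets
  obtain ⟨b, hbc, -, hb⟩ := TopologicalSpace.exists_countable_basis H
  obtain ⟨E, hE⟩ := ((hbc.mono (sep_subset b fun U => IsCompact (closure U))).insert ∅).exists_eq_range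
    ⟨∅, mem_insert _ _⟩
  have hEp : ∀ l, E l = ∅ ∨ (E l ∈ b ∧ IsCompact (closure (E l))) := by
    intro l
    have : E l ∈ insert ∅ {U ∈ b | IsCompact (closure U)} := hE ▸ mem_range_self l
    exact this
  have hEo : ∀ l, IsOpen (E l) := by
    intro l
    rcases hEp l with h | h
    · rw [h]; exact isOpen_empty
    · exact hb.isOpen h.1
  have hEk : ∀ l, IsCompact (closure (E l)) := by
    intro l
    rcases hEp l with h | h
    · rw [h, closure_empty]; exact isCompact_empty
    · exact h.2
  have hEb : ∀ (O : Set H), IsOpen O → ∀ t ∈ O, ∃ l, t ∈ E l ∧ E l ⊆ O := by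
    intro O hO t ht
    obtain ⟨K, hK, htK, hKO⟩ := exists_compact_subset hO ht
    obtain ⟨U, hUb, htU, hUK⟩ := hb.exists_subset_of_mem_open htK isOpen_interior
    have hUc : IsCompact (closure U) :=
      hK.of_isClosed_subset isClosed_closure
        (closure_minimal (hUK.trans interior_subset) hK.isClosed)
    have : U ∈ insert ∅ {U ∈ b | IsCompact (closure U)} := mem_insert_of_mem _ ⟨hUb, hUc⟩
    rw [hE] at this
    obtain ⟨l, rfl⟩ := this
    exact ⟨l, htU, (hUK.trans interior_subset).trans hKO⟩
  -- finite intersections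
  let D : ℕ × Finset ℕ → Set H := fun i => E i.1 ∩ ⋂ l ∈ i.2, E l
  have hDo : ∀ i, IsOpen (D i) := fun i =>
    (hEo _).inter (isOpen_biInter_finset fun l _ => hEo l)
  have hDk : ∀ i, IsCompact (closure (D i)) := fun i =>
    (hEk i.1).of_isClosed_subset isClosed_closure (closure_mono inter_subset_left)
  have hDE : ∀ l, D (l, ∅) = E l := by
    intro l
    show E l ∩ ⋂ l' ∈ (∅ : Finset ℕ), E l' = E l
    simp
  let e : ℕ → (ℕ × Finset ℕ) × ℕ := fun k => Denumerable.ofNat ((ℕ × Finset ℕ) × ℕ) k
  have he : ∀ i, ∃ k, e k = i := fun i => ⟨_, Denumerable.ofNat_encode i⟩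
  refine ⟨fun k => bump (D (e k).1) (e k).2, fun k => bump_cont _ _,
    fun k => bump_support (hDk _) _, fun k t => bump_range _ _ t, ?_, ?_⟩
  · intro U hU t ht
    obtain ⟨l, hl, hlU⟩ := hEb U hU t ht
    have h1 := bump_tendsto (hEo l) t
    rw [indicator_of_mem hl] at h1
    obtain ⟨m, hm⟩ := (h1.eventually_const_lt (show (0 : ℝ) < 1 from one_pos)).exists
    obtain ⟨k, hk⟩ := he ((l, ∅), m)
    refine ⟨k, ?_, fun s hs => ?_⟩
    · show 0 < bump (D (e k).1) (e k).2 t
      rw [hk, hDE]
      exact hm
    · show bump (D (e k).1) (e k).2 s = 0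
      rw [hk, hDE]
      exact bump_zero _ _ fun h => hs (hlU h)
  · intro μ _ B B' hB hB' h
    have h1 : ∀ i, μ (D i ∩ B) = μ (D i ∩ B') := by
      intro i
      have hfin : μ (closure (D i)) ≠ ⊤ := (hDk i).measure_lt_top.ne
      have h2 : ∀ B : Set H, MeasurableSet B →
          Tendsto (fun m => ∫ t in B, bump (D i) m t ∂μ) atTop (𝓝 (μ.real (D i ∩ B))) := by
        intro B hB
        have h3 : μ.real (D i ∩ B) = ∫ t in B, (D i).indicator 1 t ∂μ := by
          rw [integral_indicator_one (hDo i).measurableSet, measureReal_restrict_apply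
            (hDo i).measurableSet]
        rw [h3]
        refine tendsto_integral_of_dominated_convergence
          ((closure (D i)).indicator (1 : H → ℝ)) ?_ ?_ ?_ ?_
        · exact fun m => (bump_cont _ _).aestronglyMeasurable
        · rw [integrable_indicator_iff isClosed_closure.measurableSet]
          refine integrableOn_const ?_
          exact ((Measure.restrict_apply_le _ _).trans_lt (lt_top_iff_ne_top.2 hfin)).ne
        · refine fun m => Eventually.of_forall fun t => ?_
          by_cases ht : t ∈ closure (D i)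
          · rw [indicator_of_mem ht, Real.norm_eq_abs, abs_of_nonneg (bump_range _ _ t).1]
            exact (bump_range _ _ t).2
          · rw [indicator_of_notMem ht, bump_zero _ _ fun h => ht (subset_closure h), norm_zero]
        · exact Eventually.of_forall fun t => bump_tendsto (hDo i) t
      have h4 : (fun m => ∫ t in B, bump (D i) m t ∂μ) = fun m => ∫ t in B', bump (D i) m t ∂μ := by
        funext m
        obtain ⟨k, hk⟩ := he (i, m)
        have h5 : ∫ t in B, bump (D (e k).1) (e k).2 t ∂μ =
            ∫ t in B', bump (D (e k).1) (e k).2 t ∂μ := h k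
        rw [hk] at h5
        exact h5
      have h6 := h2 B hB
      rw [h4] at h6
      have h7 := tendsto_nhds_unique h6 (h2 B' hB')
      exact (measureReal_eq_measureReal_iff
        ((measure_mono (inter_subset_left.trans subset_closure)).trans_lt
          (lt_top_iff_ne_top.2 hfin)).ne
        ((measure_mono (inter_subset_left.trans subset_closure)).trans_lt
          (lt_top_iff_ne_top.2 hfin)).ne).1 h7
    have hgen : borel H = MeasurableSpace.generateFrom (range D) := by
      refine le_antisymm ?_ ?_
      · rw [hb.borel_eq_generateFrom]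
        refine MeasurableSpace.generateFrom_le fun U hU => ?_
        have h2 : U = ⋃ l ∈ {l | E l ⊆ U}, D (l, ∅) := by
          ext t
          simp only [mem_iUnion, exists_prop]
          constructor
          · intro ht
            obtain ⟨l, hl, hlU⟩ := hEb U (hb.isOpen hU) t ht
            exact ⟨l, hlU, by rw [hDE]; exact hl⟩
          · rintro ⟨l, hlU, hl⟩
            rw [hDE] at hl
            exact hlU hl
        rw [h2]
        exact MeasurableSet.biUnion (to_countable _) fun l _ =>
          MeasurableSpace.measurableSet_generateFrom (mem_range_self _)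
      · refine MeasurableSpace.generateFrom_le ?_
        rintro _ ⟨i, rfl⟩
        have := (hDo i).measurableSet
        rwa [BorelSpace.measurable_eq (α := H)] at this
    have hpi : IsPiSystem (range D) := by
      rintro _ ⟨i, rfl⟩ _ ⟨j, rfl⟩ -
      refine ⟨(i.1, insert j.1 (i.2 ∪ j.2)), ?_⟩
      ext t
      simp only [D, mem_inter_iff, mem_iInter, Finset.mem_insert, Finset.mem_union]
      constructor
      · rintro ⟨h1, h2⟩
        exact ⟨⟨h1, fun l hl => h2 l (Or.inr (Or.inl hl))⟩, h2 _ (Or.inl rfl),
          fun l hl => h2 l (Or.inr (Or.inr hl))⟩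
      · rintro ⟨⟨h1, h2⟩, h3, h4⟩
        refine ⟨h1, ?_⟩
        rintro l (rfl | hl | hl)
        · exact h3
        · exact h2 l hl
        · exact h4 l hl
    have hmeq : μ.restrict B = μ.restrict B' := by
      refine Measure.ext_of_generateFrom_of_iUnion (range D) (fun l => D (l, ∅))
        ((BorelSpace.measurable_eq (α := H)).trans hgen) hpi ?_ (fun l => mem_range_self _) ?_ ?_
      · refine eq_univ_of_forall fun t => ?_
        obtain ⟨l, hl, -⟩ := hEb univ isOpen_univ t (mem_univ t)
        exact mem_iUnion.2 ⟨l, by rw [hDE]; exact hl⟩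
      · intro l
        exact ((Measure.restrict_apply_le _ _).trans_lt ((measure_mono subset_closure).trans_lt
          (hDk _).measure_lt_top)).ne
      · rintro _ ⟨i, rfl⟩
        rw [Measure.restrict_apply (hDo i).measurableSet,
          Measure.restrict_apply (hDo i).measurableSet]
        exact h1 i
    have h8 : ∀ B B' : Set H, MeasurableSet B → MeasurableSet B' → μ.restrict B = μ.restrict B' →
        μ (B \ B') = 0 := by
      intro B B' hB hB' h
      have h9 : μ.restrict B (B \ B') = μ.restrict B' (B \ B') := by rw [h]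
      rw [Measure.restrict_apply (hB.diff hB'), Measure.restrict_apply (hB.diff hB')] at h9
      have h10 : B \ B' ∩ B = B \ B' := inter_eq_left.2 sdiff_subset
      have h11 : B \ B' ∩ B' = ∅ := by
        ext t
        simp
      rw [h10, h11, measure_empty] at h9
      exact h9
    exact ae_eq_set.2 ⟨h8 B B' hB hB' hmeq, h8 B' B hB' hB hmeq.symm⟩

end Pool.Agent.V8H60.TV
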