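import Mathlib

set_option autoImplicit false
set_option linter.unusedSectionVars false

/-!
# Locally compact groups: completeness, and a Borel relation
-/

namespace Pool.Agent.V8H60.TV

open Set Filter Topology MeasureTheory

/-- Locally compact second countable Hausdorff groups are Polish. -/
theorem polish_of_lc (G : Type) [TopologicalSpace G] [Group G] [IsTopologicalGroup G] [T2Space G]
    [LocallyCompactSpace G] [SecondCountableTopology G] : PolishSpace G := by
  let _ : UniformSpace G := IsTopologicalGroup.rightUniformSpace G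
  have h1 : IsRightUniformGroup G :=
    { (inferInstance : IsTopologicalGroup G) with uniformity_eq := rfl }
  have h2 : CompleteSpace G := IsRightUniformGroup.completeSpace_of_weaklyLocallyCompactSpace
  have h3 : (uniformity G).IsCountablyGenerated := by
    show (comap (fun p : G × G => p.2 * p.1⁻¹) (𝓝 1)).IsCountablyGenerated
    infer_instance
  have h4 : TopologicalSpace.IsCompletelyMetrizableSpace G :=
    TopologicalSpace.IsCompletelyMetrizableSpace.of_completeSpace_metrizable
  infer_instance

/-- Let `θ k` be Borel functions which are continuous along the orbits of a Borel action of a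
locally compact group. The relation of having the same values up to the action is Borel. -/
theorem rel_meas {H X : Type} [TopologicalSpace H] [PolishSpace H] [LocallyCompactSpace H]
    [MeasurableSpace H] [BorelSpace H] [MeasurableSpace X] {act : H × X → X}
    (hact : Measurable act) {θ : ℕ → X → ℝ} (hθ : ∀ k, Measurable (θ k))
    (hc : ∀ k x, Continuous fun h => θ k (act (h, x))) :
    MeasurableSet {p : X × X | ∃ h : H, ∀ k, θ k (act (h, p.1)) = θ k p.2} := by
  rcases isEmpty_or_nonempty H with hH | hH
  · have : {p : X × X | ∃ h : H, ∀ k, θ k (act (h, p.1)) = θ k p.2} = ∅ :=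
      eq_empty_of_forall_notMem fun p ⟨h, _⟩ => hH.elim h
    rw [this]
    exact MeasurableSet.empty
  let d : ℕ → H := TopologicalSpace.denseSeq H
  have hd : DenseRange d := TopologicalSpace.denseRange_denseSeq _
  let K : CompactExhaustion H := CompactExhaustion.choice H
  let ε : ℕ → ℝ := fun M => 1 / ((M : ℝ) + 1)
  have hε : ∀ M, 0 < ε M := fun M => by
    show (0 : ℝ) < 1 / ((M : ℝ) + 1)
    positivity
  have hεl : Tendsto ε atTop (𝓝 0) := tendsto_one_div_add_atTop_nhds_zero_nat
  have h1 : {p : X × X | ∃ h : H, ∀ k, θ k (act (h, p.1)) = θ k p.2} = ⋃ N : ℕ, ⋂ M : ℕ, ⋃ l : ℕ,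
      {p : X × X | d l ∈ K N ∧ ∀ k ≤ M, |θ k (act (d l, p.1)) - θ k p.2| ≤ ε M} := by
    ext ⟨x, y⟩
    simp only [mem_iUnion, mem_iInter, mem_ofPred_eq]
    constructor
    · rintro ⟨h, hh⟩
      obtain ⟨N, hN⟩ := K.exists_mem_nhds h
      refine ⟨N, fun M => ?_⟩
      have h2 : ∀ᶠ h' in 𝓝 h, ∀ k ∈ Iic M, |θ k (act (h', x)) - θ k y| < ε M := by
        rw [eventually_all_finite (finite_Iic M)]
        intro k _
        have h4 : Continuous fun h' => |θ k (act (h', x)) - θ k y| :=
          ((hc k x).sub continuous_const).abs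
        refine h4.continuousAt.eventually_lt_const ?_
        show |θ k (act (h, x)) - θ k y| < ε M
        rw [hh k, sub_self, abs_zero]
        exact hε M
      have h3 : ∀ᶠ h' in 𝓝 h, h' ∈ K N := hN
      obtain ⟨O, hO1, hO2, hO3⟩ := eventually_nhds_iff.1 (h3.and h2)
      obtain ⟨l, hl⟩ := hd.exists_mem_open hO2 ⟨h, hO3⟩
      obtain ⟨h7, h8⟩ := hO1 _ hl
      exact ⟨l, h7, fun k hk => (h8 k hk).le⟩
    · rintro ⟨N, hN⟩
      choose l hl1 hl2 using hN
      obtain ⟨h, -, φ, hφ, hlim⟩ := (K.isCompact N).tendsto_subseq (x := fun M => d (l M)) hl1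
      refine ⟨h, fun k => ?_⟩
      have h4 : Tendsto (fun M => θ k (act (d (l (φ M)), x))) atTop (𝓝 (θ k (act (h, x)))) :=
        ((hc k x).tendsto h).comp hlim
      have h5 : Tendsto (fun M => θ k (act (d (l (φ M)), x))) atTop (𝓝 (θ k y)) := by
        rw [tendsto_iff_dist_tendsto_zero]
        refine squeeze_zero' (Eventually.of_forall fun M => dist_nonneg) ?_
          (hεl.comp hφ.tendsto_atTop)
        filter_upwards [eventually_ge_atTop k] with M hM
        exact hl2 (φ M) k (hM.trans (hφ.id_le M))
      exact tendsto_nhds_unique h4 h5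
  rw [h1]
  refine MeasurableSet.iUnion fun N => MeasurableSet.iInter fun M => MeasurableSet.iUnion fun l => ?_
  have h2 : {p : X × X | d l ∈ K N ∧ ∀ k ≤ M, |θ k (act (d l, p.1)) - θ k p.2| ≤ ε M} =
      {p : X × X | d l ∈ K N} ∩ ⋂ k, ⋂ (_ : k ≤ M),
        {p : X × X | |θ k (act (d l, p.1)) - θ k p.2| ≤ ε M} := by
    ext p
    simp only [mem_inter_iff, mem_iInter, mem_ofPred_eq]
  rw [h2]
  refine (MeasurableSet.const _).inter (MeasurableSet.iInter fun k => MeasurableSet.iInter fun _ => ?_)
  have h3 : Measurable fun p : X × X => θ k (act (d l, p.1)) :=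
    (hθ k).comp (hact.comp (measurable_const.prodMk measurable_fst))
  have h4 : Measurable fun p : X × X => θ k p.2 := (hθ k).comp measurable_snd
  exact measurableSet_le (continuous_abs.measurable.comp (h3.sub h4)) measurable_const

end Pool.Agent.V8H60.TV
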