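import Mathlib
import Pool.Agent.V8H60.TV.Open

set_option autoImplicit false
set_option linter.unusedSectionVars false

/-!
# Compact kernels, and local isomorphism up to compact kernels
-/

namespace Pool.Agent.V8H60.TV

open Set Filter Topology MeasureTheory
open Function (Surjective Injective)

section

variable {G L : Type} [TopologicalSpace G] [Group G] [IsTopologicalGroup G] [PolishSpace G]
  [MeasurableSpace G] [BorelSpace G] [TopologicalSpace L] [Group L] [IsTopologicalGroup L]
  [PolishSpace L] [MeasurableSpace L] [BorelSpace L]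

/-- The topological Vaught conjecture passes to quotients. -/
theorem tvc_quot (q : G →* L) (hq : Continuous q) (hqs : Surjective q) (h : TVC G) : TVC L := by
  intro Y _ _ _ _
  have hm : Measurable fun p : L × Y => p.1 • p.2 := measurable_smul
  let act : MulAction G Y := MulAction.compHom Y q
  have hms : MeasurableSMul₂ G Y :=
    ⟨hm.comp ((hq.measurable.comp measurable_fst).prodMk measurable_snd)⟩
  have h1 : @Dich G Y _ _ act := @h Y _ _ act hms
  exact (@dich_quot G L Y Y _ _ _ _ _ _ act _ q hqs id measurable_id Function.surjective_id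
    (fun _ _ => rfl) (fun x y hxy => ⟨1, by rw [one_smul]; exact hxy⟩)).1 h1

/-- The topological Vaught conjecture for a group follows from the conjecture for its quotient by a
compact normal subgroup. -/
theorem tvc_compact (q : G →* L) (hq : Continuous q) (hqs : Surjective q)
    (hK : IsCompact (q.ker : Set G)) : TVC G ↔ TVC L := by
  refine ⟨tvc_quot q hq hqs, fun h X _ _ _ _ => ?_⟩
  have hm : Measurable fun r : G × X => r.1 • r.2 := measurable_smul
  have hcl : IsClosed (q.ker : Set G) := isClosed_singleton.preimage hq
  have hpk : PolishSpace q.ker := hcl.polishSpace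
  have hck : CompactSpace q.ker := isCompact_iff_compactSpace.1 hK
  have hmk : Measurable fun r : q.ker × X => r.1 • r.2 :=
    hm.comp ((measurable_subtype_coe.comp measurable_fst).prodMk measurable_snd)
  obtain ⟨c, hc, hc2, -⟩ := exists_code (K := q.ker) hmk
  obtain ⟨Y, _, _, _, _, p, hp, hps, heq, hpo⟩ := exists_quot q hq hqs c hc (fun x y => by
    rw [hc2 x y]
    constructor
    · rintro ⟨n, h⟩
      exact ⟨n, n.2, h⟩
    · rintro ⟨n, hn, h⟩
      exact ⟨⟨n, hn⟩, h⟩)
  refine (dich_quot hqs hp hps heq fun x y hxy => ?_).2 (h Y)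
  obtain ⟨n, -, hn⟩ := (hpo x y).1 hxy
  exact ⟨n, hn⟩

/-- The topological Vaught conjecture for a group and for an open subgroup are equivalent. -/
theorem tvc_open {V : Subgroup G} (hV : IsOpen (V : Set G)) : TVC G ↔ TVC V := by
  refine ⟨tvc_down hV, fun h X _ _ _ _ => ?_⟩
  have hm : Measurable fun r : G × X => r.1 • r.2 := measurable_smul
  have _ : MeasurableSMul₂ V X :=
    ⟨hm.comp ((measurable_subtype_coe.comp measurable_fst).prodMk measurable_snd)⟩
  exact dich_up hm hV (h X)

end

/-- Local isomorphism up to compact kernels. -/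
theorem tvc_local {G G' L : Type} [TopologicalSpace G] [Group G] [IsTopologicalGroup G]
    [PolishSpace G] [MeasurableSpace G] [BorelSpace G] [TopologicalSpace G'] [Group G']
    [IsTopologicalGroup G'] [PolishSpace G'] [MeasurableSpace G'] [BorelSpace G']
    [TopologicalSpace L] [Group L] [IsTopologicalGroup L] [PolishSpace L]
    {V : Subgroup G} (hV : IsOpen (V : Set G)) {V' : Subgroup G'} (hV' : IsOpen (V' : Set G'))
    (q : V →* L) (hq : Continuous q) (hqs : Surjective q) (hK : IsCompact (q.ker : Set V))
    (q' : V' →* L) (hq' : Continuous q') (hqs' : Surjective q')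
    (hK' : IsCompact (q'.ker : Set V')) : TVC G ↔ TVC G' := by
  let _ : MeasurableSpace L := borel L
  have _ : BorelSpace L := ⟨rfl⟩
  have _ : PolishSpace V := hV.polishSpace
  have _ : PolishSpace V' := hV'.polishSpace
  rw [tvc_open hV, tvc_compact q hq hqs hK, ← tvc_compact q' hq' hqs' hK', ← tvc_open hV']

/-- Quotients by normal subgroups that meet an open subgroup in a compact set. -/
theorem tvc_quot_local {G H : Type} [TopologicalSpace G] [Group G] [IsTopologicalGroup G]
    [PolishSpace G] [MeasurableSpace G] [BorelSpace G] [TopologicalSpace H] [Group H]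
    [IsTopologicalGroup H] [PolishSpace H] [MeasurableSpace H] [BorelSpace H] (q : G →* H)
    (hq : Continuous q) (hqo : IsOpenMap q) {V : Subgroup G} (hV : IsOpen (V : Set G))
    (hK : IsCompact ((V : Set G) ∩ q.ker)) : TVC G ↔ TVC H := by
  have hV' : IsOpen ((V.map q : Subgroup H) : Set H) := by
    rw [Subgroup.coe_map]
    exact hqo _ hV
  have _ : PolishSpace (V.map q) := hV'.polishSpace
  refine tvc_local hV hV' (L := V.map q) (q.subgroupMap V) ?_ (q.subgroupMap_surjective V) ?_
    (MonoidHom.id _) continuous_id Function.surjective_id ?_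
  · exact Continuous.subtype_mk (hq.comp continuous_subtype_val) _
  · rw [Topology.IsInducing.subtypeVal.isCompact_iff]
    have h1 : Subtype.val '' ((q.subgroupMap V).ker : Set V) = (V : Set G) ∩ q.ker := by
      ext g
      constructor
      · rintro ⟨v, hv, rfl⟩
        refine ⟨v.2, ?_⟩
        have h2 : q.subgroupMap V v = 1 := hv
        exact congrArg Subtype.val h2
      · rintro ⟨hgV, hg⟩
        refine ⟨⟨g, hgV⟩, ?_, rfl⟩
        show q.subgroupMap V ⟨g, hgV⟩ = 1
        exact Subtype.ext hg
    exact (congrArg IsCompact h1).mpr hK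
  · have h1 : ((MonoidHom.id (V.map q)).ker : Set (V.map q)) = {1} := by
      ext x
      exact Iff.rfl
    rw [h1]
    exact isCompact_singleton

end Pool.Agent.V8H60.TV
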