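import Mathlib
import Pool.Agent.V8H42.TV.Final
import Pool.Agent.V8H60.TV.Open

set_option autoImplicit false
set_option linter.unusedSectionVars false

/-!
# Separating families of Borel sets that are invariant under open subgroups
-/

namespace Pool.Agent.V8H60.TV

open Set Filter Topology MeasureTheory
open Pool.Agent.V8H42.TV

/-- In a Borel space with an action of a nonarchimedean group the points are separated by a
countable family of Borel sets which are invariant under open subgroups. -/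
theorem exists_family {W X : Type} [TopologicalSpace W] [Group W] [NonarchimedeanGroup W]
    [PolishSpace W] [MeasurableSpace W] [BorelSpace W] [MeasurableSpace X] [StandardBorelSpace X]
    [MulAction W X] (hm : Measurable fun p : W × X => p.1 • p.2) :
    ∃ (V : ℕ → Subgroup W) (S : ℕ → Set X), (∀ j, IsOpen (V j : Set W)) ∧
      (∀ j, MeasurableSet (S j)) ∧ (∀ j, ∀ v ∈ V j, ∀ x, v • x ∈ S j ↔ x ∈ S j) ∧
      ∀ x y, (∀ j, x ∈ S j ↔ y ∈ S j) → x = y := by
  obtain ⟨A, hA, hsep⟩ := exists_separating X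
  obtain ⟨β⟩ := exists_base W
  obtain ⟨ν⟩ := exists_nb W
  have hU : ∀ n, ∃ U : Subgroup W, IsOpen (U : Set W) ∧ (U : Set W) ⊆ ν.U n := by
    intro n
    obtain ⟨U, hU⟩ := NonarchimedeanGroup.is_nonarchimedean (ν.U n)
      ((ν.isOpen n).mem_nhds (ν.one n))
    exact ⟨U, U.isOpen, hU⟩
  choose U hUo hUν using hU
  let d : ℕ → W := TopologicalSpace.denseSeq W
  have hd : DenseRange d := TopologicalSpace.denseRange_denseSeq _
  let C : ℕ → ℕ → Set W := fun m n => {w | (d m)⁻¹ * w ∈ U n}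
  have hCo : ∀ m n, IsOpen (C m n) := fun m n =>
    (hUo n).preimage (continuous_const.mul continuous_id)
  have hCne : ∀ m n, (C m n).Nonempty := fun m n => ⟨d m, by
    show (d m)⁻¹ * d m ∈ U n
    rw [inv_mul_cancel]
    exact (U n).one_mem⟩
  let S : ℕ × ℕ × ℕ → Set X := fun i => {x | NM (C i.2.1 i.2.2) x (A i.1)}
  have hSm : ∀ i, MeasurableSet (S i) := fun i => meas_NM β hm (hCo _ _) (hA _)
  have hSi : ∀ i, ∀ v ∈ U i.2.2, ∀ x, v • x ∈ S i ↔ x ∈ S i := by
    have h1 : ∀ i, ∀ v ∈ U i.2.2, ∀ x, v • x ∈ S i → x ∈ S i := by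
      intro i v hv x hx
      refine NM.translate (fun c hc => ?_) hx
      show (d i.2.1)⁻¹ * (c * v) ∈ U i.2.2
      rw [← mul_assoc]
      exact (U _).mul_mem hc hv
    intro i v hv x
    refine ⟨h1 i v hv x, fun hx => h1 i v⁻¹ ((U _).inv_mem hv) (v • x) ?_⟩
    rwa [inv_smul_smul]
  have hm2 : Measurable fun p : W × (X × X) => p.1 • p.2 := by
    refine Measurable.prodMk ?_ ?_
    · exact hm.comp (measurable_fst.prodMk (measurable_fst.comp measurable_snd))
    · exact hm.comp (measurable_fst.prodMk (measurable_snd.comp measurable_snd))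
  have hkey : ∀ x y, (∀ i, x ∈ S i → y ∈ S i) → ∀ i, IsMeagre {w : W | w • x ∈ A i ∧ w • y ∉ A i} := by
    intro x y hxy i
    by_contra hn
    have h1 : NM (univ : Set W) (x, y) (A i ×ˢ (A i)ᶜ) := by
      unfold NM
      rw [inter_univ]
      exact hn
    obtain ⟨k, -, hk⟩ := h1.local β hm2 isOpen_univ ((hA i).prod (hA i).compl)
    unfold NM at hk
    push Not at hk
    obtain ⟨w₀, hw₀⟩ := β.ne k
    obtain ⟨n, hn2⟩ := ν.base {u | w₀ * u ∈ β.V k}
      ((β.isOpen k).preimage (continuous_const.mul continuous_id)) (by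
        show w₀ * 1 ∈ β.V k
        rwa [mul_one])
    obtain ⟨m, hmd⟩ := hd.exists_mem_open (s := {w | w₀⁻¹ * w ∈ U n})
      ((hUo n).preimage (continuous_const.mul continuous_id)) ⟨w₀, by
        show w₀⁻¹ * w₀ ∈ U n
        rw [inv_mul_cancel]
        exact (U n).one_mem⟩
    have hCk : C m n ⊆ β.V k := by
      intro w hw
      have h2 : w₀⁻¹ * w ∈ U n := by
        have h3 := (U n).mul_mem (show w₀⁻¹ * d m ∈ U n from hmd) (show (d m)⁻¹ * w ∈ U n from hw)
        have h4 : w₀⁻¹ * d m * ((d m)⁻¹ * w) = w₀⁻¹ * w := by group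
        rwa [h4] at h3
      have h5 : w₀ * (w₀⁻¹ * w) ∈ β.V k := hn2 (hUν n h2)
      rwa [mul_inv_cancel_left] at h5
    have hy : ¬ NM (C m n) y (A i) := by
      intro hy
      refine hy (hk.mono ?_)
      rintro w ⟨hw1, hw2⟩
      exact ⟨fun h => h.2 hw1, hCk hw2⟩
    have hx : NM (C m n) x (A i) := by
      intro hx
      refine not_isMeagre_of_isOpen (hCo m n) (hCne m n) ((hx.union hk).mono ?_)
      intro w hw
      by_cases hwx : w • x ∈ A i
      · exact Or.inl ⟨hwx, hw⟩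
      · exact Or.inr ⟨fun h => hwx h.1, hCk hw⟩
    exact hy (hxy (i, m, n) hx)
  have hpt : ∀ x y, (∀ i, x ∈ S i ↔ y ∈ S i) → x = y := by
    intro x y hxy
    have h1 : IsMeagre ((⋃ i, {w : W | w • x ∈ A i ∧ w • y ∉ A i}) ∪
        ⋃ i, {w : W | w • y ∈ A i ∧ w • x ∉ A i}) :=
      (isMeagre_iUnion (hkey x y fun i => (hxy i).1)).union
        (isMeagre_iUnion (hkey y x fun i => (hxy i).2))
    obtain ⟨w, hw⟩ : ∃ w : W, w ∉ ((⋃ i, {w : W | w • x ∈ A i ∧ w • y ∉ A i}) ∪
        ⋃ i, {w : W | w • y ∈ A i ∧ w • x ∉ A i}) := by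
      by_contra hcon
      push Not at hcon
      exact not_isMeagre_of_isOpen isOpen_univ ⟨(1 : W), mem_univ _⟩
        (h1.mono fun w _ => hcon w)
    have h2 : w • x = w • y := by
      refine hsep _ _ fun i => ⟨fun h => ?_, fun h => ?_⟩
      · by_contra h'
        exact hw (Or.inl (mem_iUnion.2 ⟨i, h, h'⟩))
      · by_contra h'
        exact hw (Or.inr (mem_iUnion.2 ⟨i, h, h'⟩))
    exact smul_left_cancel w h2
  refine ⟨fun j => U (Denumerable.ofNat (ℕ × ℕ × ℕ) j).2.2,
    fun j => S (Denumerable.ofNat (ℕ × ℕ × ℕ) j), fun j => hUo _, fun j => hSm _,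
    fun j v hv x => hSi _ v hv x, fun x y h => hpt x y fun i => ?_⟩
  have h1 : x ∈ S (Denumerable.ofNat (ℕ × ℕ × ℕ) (Encodable.encode i)) ↔
      y ∈ S (Denumerable.ofNat (ℕ × ℕ × ℕ) (Encodable.encode i)) := h (Encodable.encode i)
  rwa [Denumerable.ofNat_encode] at h1

end Pool.Agent.V8H60.TV
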