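import Mathlib

set_option autoImplicit false
set_option linter.unusedSectionVars false

/-!
# Closed subgroups of Euclidean spaces
-/

namespace Pool.Agent.V8H60.TV

open Set Filter Topology

variable {n : ℕ}

/-- the largest subspace contained in a subgroup -/
def linPart (T : AddSubgroup (EuclideanSpace ℝ (Fin n))) :
    Submodule ℝ (EuclideanSpace ℝ (Fin n)) where
  carrier := {v | ∀ r : ℝ, r • v ∈ T}
  add_mem' := by
    intro a b ha hb r
    rw [smul_add]
    exact T.add_mem (ha r) (hb r)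
  zero_mem' := by
    intro r
    rw [smul_zero]
    exact T.zero_mem
  smul_mem' := by
    intro c v hv r
    rw [smul_smul]
    exact hv _

theorem mem_linPart {T : AddSubgroup (EuclideanSpace ℝ (Fin n))} {v : EuclideanSpace ℝ (Fin n)} :
    v ∈ linPart T ↔ ∀ r : ℝ, r • v ∈ T := Iff.rfl

theorem linPart_le {T : AddSubgroup (EuclideanSpace ℝ (Fin n))} {v : EuclideanSpace ℝ (Fin n)}
    (h : v ∈ linPart T) : v ∈ T := by
  have := h 1
  rwa [one_smul] at this

theorem linPart_mono {T T' : AddSubgroup (EuclideanSpace ℝ (Fin n))} (h : T ≤ T') :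
    linPart T ≤ linPart T' := fun _ hv r => h (hv r)

/-- A closed subgroup of a Euclidean space is discrete modulo its largest subspace. -/
theorem exists_eps (T : AddSubgroup (EuclideanSpace ℝ (Fin n)))
    (hT : IsClosed (T : Set (EuclideanSpace ℝ (Fin n)))) :
    ∃ ε > 0, ∀ t ∈ T, ‖t‖ < ε → t ∈ linPart T := by
  by_contra hcon
  push Not at hcon
  have h1 : ∀ k : ℕ, ∃ u ∈ T, u ∈ (linPart T)ᗮ ∧ u ≠ 0 ∧ ‖u‖ < 1 / ((k : ℝ) + 1) := by
    intro k
    obtain ⟨t, ht, htk, htl⟩ := hcon (1 / ((k : ℝ) + 1)) (by positivity)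
    obtain ⟨s, hs, u, hu, hsu⟩ := (linPart T).exists_add_mem_mem_orthogonal t
    have hu2 : u = t - s := by rw [hsu]; abel
    refine ⟨u, ?_, hu, ?_, ?_⟩
    · rw [hu2]
      exact T.sub_mem ht (linPart_le hs)
    · rintro rfl
      apply htl
      rw [hsu, add_zero]
      exact hs
    · refine lt_of_le_of_lt ?_ htk
      have h2 : inner ℝ s u = 0 := (Submodule.mem_orthogonal _ u).1 hu s hs
      have h3 : ‖t‖ * ‖t‖ = ‖s‖ * ‖s‖ + ‖u‖ * ‖u‖ := by
        rw [hsu]
        exact norm_add_sq_eq_norm_sq_add_norm_sq_of_inner_eq_zero s u h2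
      nlinarith [norm_nonneg t, norm_nonneg u, mul_self_nonneg ‖s‖]
  choose u huT huo hu0 huk using h1
  have hmem : ∀ k, (‖u k‖⁻¹ • u k) ∈ Metric.sphere (0 : EuclideanSpace ℝ (Fin n)) 1 := by
    intro k
    rw [mem_sphere_zero_iff_norm, norm_smul, norm_inv, norm_norm]
    exact inv_mul_cancel₀ (norm_ne_zero_iff.2 (hu0 k))
  obtain ⟨v, hv, φ, hφ, hlim⟩ := (isCompact_sphere (0 : EuclideanSpace ℝ (Fin n)) 1).tendsto_subseq hmem
  have hvo : v ∈ (linPart T)ᗮ := by
    have hc : IsClosed ((linPart T)ᗮ : Set (EuclideanSpace ℝ (Fin n))) :=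
      Submodule.isClosed_orthogonal _
    refine hc.mem_of_tendsto hlim (Eventually.of_forall fun k => ?_)
    exact Submodule.smul_mem _ _ (huo _)
  have hu_lim : Tendsto (fun k => ‖u (φ k)‖) atTop (𝓝 0) := by
    have h2 : Tendsto (fun k : ℕ => 1 / ((k : ℝ) + 1)) atTop (𝓝 0) :=
      tendsto_one_div_add_atTop_nhds_zero_nat
    have h3 : Tendsto (fun k => ‖u k‖) atTop (𝓝 0) :=
      squeeze_zero (fun k => norm_nonneg _) (fun k => (huk k).le) h2
    exact h3.comp hφ.tendsto_atTop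
  have hvl : v ∈ linPart T := by
    intro r
    have h2 : Tendsto (fun k => (⌊r / ‖u (φ k)‖⌋ : ℝ) • u (φ k)) atTop (𝓝 (r • v)) := by
      have h3 : Tendsto (fun k => r • (‖u (φ k)‖⁻¹ • u (φ k))) atTop (𝓝 (r • v)) :=
        hlim.const_smul r
      have h4 : Tendsto (fun k => (⌊r / ‖u (φ k)‖⌋ : ℝ) • u (φ k) -
          r • (‖u (φ k)‖⁻¹ • u (φ k))) atTop (𝓝 0) := by
        refine squeeze_zero_norm (fun k => ?_) hu_lim
        have h5 : (⌊r / ‖u (φ k)‖⌋ : ℝ) • u (φ k) - r • (‖u (φ k)‖⁻¹ • u (φ k)) =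
            ((⌊r / ‖u (φ k)‖⌋ : ℝ) - r / ‖u (φ k)‖) • u (φ k) := by
          rw [smul_smul, ← sub_smul, div_eq_mul_inv]
        rw [h5, norm_smul]
        have h6 : ‖(⌊r / ‖u (φ k)‖⌋ : ℝ) - r / ‖u (φ k)‖‖ ≤ 1 := by
          rw [Real.norm_eq_abs, abs_le]
          constructor
          · linarith [Int.lt_floor_add_one (r / ‖u (φ k)‖)]
          · linarith [Int.floor_le (r / ‖u (φ k)‖)]
        calc ‖(⌊r / ‖u (φ k)‖⌋ : ℝ) - r / ‖u (φ k)‖‖ * ‖u (φ k)‖ ≤ 1 * ‖u (φ k)‖ :=
              mul_le_mul_of_nonneg_right h6 (norm_nonneg _)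
          _ = ‖u (φ k)‖ := one_mul _
      have h7 := h3.add h4
      rw [add_zero] at h7
      refine h7.congr fun k => ?_
      abel
    refine hT.mem_of_tendsto h2 (Eventually.of_forall fun k => ?_)
    have h8 : (⌊r / ‖u (φ k)‖⌋ : ℝ) • u (φ k) = ⌊r / ‖u (φ k)‖⌋ • u (φ k) := by
      rw [Int.cast_smul_eq_zsmul]
    rw [h8]
    exact T.zsmul_mem (huT _) _
  have h9 : inner ℝ v v = 0 := (Submodule.mem_orthogonal _ v).1 hvo v hvl
  rw [inner_self_eq_zero] at h9
  rw [mem_sphere_zero_iff_norm, h9, norm_zero] at hv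
  exact zero_ne_one hv

/-- In a decreasing sequence of subgroups, the largest subspace of some member is contained in all
members. -/
theorem exists_stable (T : ℕ → AddSubgroup (EuclideanSpace ℝ (Fin n))) (hT : Antitone T) :
    ∃ i, ∀ j, ∀ v ∈ linPart (T i), v ∈ T j := by
  let f : ℕ →o (Submodule ℝ (EuclideanSpace ℝ (Fin n)))ᵒᵈ :=
    ⟨fun i => OrderDual.toDual (linPart (T i)), fun i j hij => linPart_mono (hT hij)⟩
  obtain ⟨i, hi⟩ := IsArtinian.monotone_stabilizes f
  refine ⟨i, fun j v hv => ?_⟩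
  rcases le_total i j with hij | hij
  · have h1 : linPart (T i) = linPart (T j) := OrderDual.toDual.injective (hi j hij)
    rw [h1] at hv
    exact linPart_le hv
  · exact hT hij (linPart_le hv)

end Pool.Agent.V8H60.TV
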