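import Mathlib
import Pool.Agent.V8H60.TV.Lin

set_option autoImplicit false
set_option linter.unusedSectionVars false

/-!
# Averages over balls along the orbits of an action of a Euclidean space
-/

namespace Pool.Agent.V8H60.TV

open Set Filter Topology MeasureTheory

/-- Euclidean space -/
abbrev Eu (n : ℕ) := EuclideanSpace ℝ (Fin n)

variable {n : ℕ} {X : Type}

/-- the measure of the part of a ball that is mapped into a set by the orbit map -/
noncomputable def psi (τ : Eu n → X → X) (S : Set X) (c : Eu n) (r : ℝ) (x : X) : ℝ :=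
  (volume ({t : Eu n | τ t x ∈ S} ∩ Metric.closedBall c r)).toReal

theorem psi_fin (τ : Eu n → X → X) (S : Set X) (c : Eu n) (r : ℝ) (x : X) :
    volume ({t : Eu n | τ t x ∈ S} ∩ Metric.closedBall c r) ≠ ⊤ :=
  ((measure_mono inter_subset_right).trans_lt measure_closedBall_lt_top).ne

theorem psi_shift {τ : Eu n → X → X} (hadd : ∀ s t x, τ (s + t) x = τ s (τ t x)) (S : Set X)
    (c : Eu n) (r : ℝ) (h : Eu n) (x : X) : psi τ S c r (τ h x) = psi τ S (c + h) r x := by
  unfold psi
  have h1 : {t : Eu n | τ t (τ h x) ∈ S} ∩ Metric.closedBall c r =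
      (fun t => t + h) ⁻¹' ({t : Eu n | τ t x ∈ S} ∩ Metric.closedBall (c + h) r) := by
    ext t
    simp only [mem_inter_iff, mem_ofPred_eq, mem_preimage, Metric.mem_closedBall, hadd,
      dist_add_right]
  rw [h1, measure_preimage_add_right]

theorem psi_meas [MeasurableSpace X] {τ : Eu n → X → X}
    (hτ : Measurable fun p : Eu n × X => τ p.1 p.2) {S : Set X} (hS : MeasurableSet S) (c : Eu n)
    (r : ℝ) : Measurable (psi τ S c r) := by
  have h1 : MeasurableSet {p : X × Eu n | τ p.2 p.1 ∈ S ∧ p.2 ∈ Metric.closedBall c r} := by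
    refine MeasurableSet.inter ?_ ?_
    · exact (hτ.comp measurable_swap) hS
    · exact measurable_snd Metric.isClosed_closedBall.measurableSet
  exact (measurable_measure_prodMk_left (ν := (volume : Measure (Eu n))) h1).ennreal_toReal

theorem psi_cont [MeasurableSpace X] {τ : Eu n → X → X}
    (hτ : Measurable fun p : Eu n × X => τ p.1 p.2) {S : Set X} (hS : MeasurableSet S) {r : ℝ}
    (hr : 0 < r) (x : X) : Continuous fun c => psi τ S c r x := by
  have hB : MeasurableSet {t : Eu n | τ t x ∈ S} := (hτ.comp (measurable_id.prodMk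
    measurable_const)) hS
  have hI : ∀ c, psi τ S c r x = ∫ t, ({t : Eu n | τ t x ∈ S} ∩ Metric.closedBall c r).indicator
      (1 : Eu n → ℝ) t := by
    intro c
    rw [integral_indicator_one (hB.inter Metric.isClosed_closedBall.measurableSet)]
    rfl
  rw [continuous_iff_continuousAt]
  intro c₀
  have h1 : ContinuousAt (fun c => ∫ t, ({t : Eu n | τ t x ∈ S} ∩
      Metric.closedBall c r).indicator (1 : Eu n → ℝ) t) c₀ := by
    refine continuousAt_of_dominated
      (bound := (Metric.closedBall c₀ (r + 1)).indicator (1 : Eu n → ℝ)) ?_ ?_ ?_ ?_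
    · exact Eventually.of_forall fun c => (measurable_one.indicator
        (hB.inter Metric.isClosed_closedBall.measurableSet)).aestronglyMeasurable
    · filter_upwards [Metric.ball_mem_nhds c₀ one_pos] with c hc
      refine Eventually.of_forall fun t => ?_
      by_cases ht : t ∈ {t : Eu n | τ t x ∈ S} ∩ Metric.closedBall c r
      · have h2 : t ∈ Metric.closedBall c₀ (r + 1) := by
          rw [Metric.mem_closedBall]
          have h3 : dist t c ≤ r := ht.2
          have h4 : dist c c₀ < 1 := hc
          linarith [dist_triangle t c c₀]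
        rw [indicator_of_mem ht, indicator_of_mem h2]
        simp
      · rw [indicator_of_notMem ht, norm_zero]
        exact indicator_nonneg (fun _ _ => zero_le_one) _
    · rw [integrable_indicator_iff Metric.isClosed_closedBall.measurableSet]
      exact integrableOn_const (measure_closedBall_lt_top.ne)
    · have h2 : ∀ᵐ t : Eu n, t ∉ Metric.sphere c₀ r := by
        rw [← measure_eq_zero_iff_ae_notMem]
        exact Measure.addHaar_sphere_of_ne_zero _ _ hr.ne'
      filter_upwards [h2] with t ht
      have h3 : ∀ᶠ c in 𝓝 c₀, (t ∈ Metric.closedBall c r ↔ t ∈ Metric.closedBall c₀ r) := by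
        rcases lt_trichotomy (dist t c₀) r with h4 | h4 | h4
        · have h5 : ∀ᶠ c in 𝓝 c₀, dist t c < r :=
            (continuous_const.dist continuous_id).continuousAt.eventually_lt_const h4
          filter_upwards [h5] with c hc
          exact ⟨fun _ => h4.le, fun _ => hc.le⟩
        · exact absurd h4 ht
        · have h5 : ∀ᶠ c in 𝓝 c₀, r < dist t c :=
            (continuous_const.dist continuous_id).continuousAt.eventually_const_lt h4
          filter_upwards [h5] with c hc
          exact ⟨fun h => absurd (show dist t c ≤ r from h) (not_le.2 hc),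
            fun h => absurd (show dist t c₀ ≤ r from h) (not_le.2 h4)⟩
      have h6 : (fun c => ({t : Eu n | τ t x ∈ S} ∩ Metric.closedBall c r).indicator
          (1 : Eu n → ℝ) t) =ᶠ[𝓝 c₀] fun _ => ({t : Eu n | τ t x ∈ S} ∩
          Metric.closedBall c₀ r).indicator (1 : Eu n → ℝ) t := by
        filter_upwards [h3] with c hc
        by_cases ht' : t ∈ {t : Eu n | τ t x ∈ S} ∩ Metric.closedBall c₀ r
        · rw [indicator_of_mem ht', indicator_of_mem (show t ∈ {t : Eu n | τ t x ∈ S} ∩
            Metric.closedBall c r from ⟨ht'.1, hc.2 ht'.2⟩)]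
        · rw [indicator_of_notMem ht', indicator_of_notMem fun h => ht' ⟨h.1, hc.1 h.2⟩]
      exact continuousAt_const.congr h6.symm
  exact h1.congr (Eventually.of_forall fun c => (hI c).symm)

/-- the radii -/
noncomputable def rad (k : ℕ) : ℝ := 1 / ((k : ℝ) + 1)

theorem rad_pos (k : ℕ) : 0 < rad k := by
  unfold rad
  positivity

theorem rad_tendsto : Tendsto rad atTop (𝓝 0) := tendsto_one_div_add_atTop_nhds_zero_nat

/-- The averages determine the set of times which are spent in a set, up to measure zero. -/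
theorem psi_det [MeasurableSpace X] {τ : Eu n → X → X}
    (hτ : Measurable fun p : Eu n × X => τ p.1 p.2) {S : Set X} (hS : MeasurableSet S) {x y : X}
    (h : ∀ c k, psi τ S c (rad k) x = psi τ S c (rad k) y) :
    ∀ᵐ t : Eu n, τ t x ∈ S ↔ τ t y ∈ S := by
  have hB : ∀ x, MeasurableSet {t : Eu n | τ t x ∈ S} := fun x => (hτ.comp (measurable_id.prodMk
    measurable_const)) hS
  have hr : Tendsto rad atTop (𝓝[>] 0) :=
    tendsto_nhdsWithin_iff.2 ⟨rad_tendsto, Eventually.of_forall fun k => rad_pos k⟩
  filter_upwards [Besicovitch.ae_tendsto_measure_inter_div_of_measurableSet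
    (volume : Measure (Eu n)) (hB x), Besicovitch.ae_tendsto_measure_inter_div_of_measurableSet
    (volume : Measure (Eu n)) (hB y)] with t h1 h2
  have h3 := h1.comp hr
  have h4 := h2.comp hr
  have h5 : ((fun r => volume ({t : Eu n | τ t x ∈ S} ∩ Metric.closedBall t r) /
      volume (Metric.closedBall t r)) ∘ rad) = ((fun r => volume ({t : Eu n | τ t y ∈ S} ∩
      Metric.closedBall t r) / volume (Metric.closedBall t r)) ∘ rad) := by
    funext k
    have h6 := h t k
    unfold psi at h6
    rw [ENNReal.toReal_eq_toReal_iff' (psi_fin τ S t (rad k) x) (psi_fin τ S t (rad k) y)] at h6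
    show _ / _ = _ / _
    rw [h6]
  rw [h5] at h3
  have h7 := tendsto_nhds_unique h3 h4
  by_cases hx : t ∈ {t : Eu n | τ t x ∈ S} <;> by_cases hy : t ∈ {t : Eu n | τ t y ∈ S}
  · exact ⟨fun _ => hy, fun _ => hx⟩
  · rw [indicator_of_mem hx, indicator_of_notMem hy] at h7
    exact absurd h7 one_ne_zero
  · rw [indicator_of_notMem hx, indicator_of_mem hy] at h7
    exact absurd h7.symm one_ne_zero
  · exact ⟨fun h => absurd h hx, fun h => absurd h hy⟩

/-- equality of the averages for the first sets of a sequence -/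
def LevEq (τ : Eu n → X → X) (S : ℕ → Set X) (i : ℕ) (x y : X) : Prop :=
  ∀ j ≤ i, ∀ c k, psi τ (S j) c (rad k) x = psi τ (S j) c (rad k) y

section

variable {τ : Eu n → X → X} {S : ℕ → Set X} {i : ℕ}

theorem LevEq.symm {x y : X} (h : LevEq τ S i x y) : LevEq τ S i y x :=
  fun j hj c k => (h j hj c k).symm

theorem LevEq.refl (x : X) : LevEq τ S i x x := fun _ _ _ _ => rfl

theorem LevEq.trans {x y z : X} (h : LevEq τ S i x y) (h' : LevEq τ S i y z) :
    LevEq τ S i x z := fun j hj c k => (h j hj c k).trans (h' j hj c k)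

theorem LevEq.mono {i' : ℕ} (hi : i' ≤ i) {x y : X} (h : LevEq τ S i x y) : LevEq τ S i' x y :=
  fun j hj c k => h j (hj.trans hi) c k

theorem LevEq.shift (hadd : ∀ s t x, τ (s + t) x = τ s (τ t x)) {x y : X}
    (h : LevEq τ S i x y) (t : Eu n) : LevEq τ S i (τ t x) (τ t y) := by
  intro j hj c k
  rw [psi_shift hadd, psi_shift hadd]
  exact h j hj _ k

/-- the closed subgroup of all translations which preserve the averages -/
def stabLev (τ : Eu n → X → X) (h0 : ∀ x, τ 0 x = x) (hadd : ∀ s t x, τ (s + t) x = τ s (τ t x))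
    (S : ℕ → Set X) (i : ℕ) (x : X) : AddSubgroup (Eu n) where
  carrier := {t | LevEq τ S i (τ t x) x}
  zero_mem' := by
    show LevEq τ S i (τ 0 x) x
    rw [h0]
    exact LevEq.refl x
  add_mem' := by
    intro s t hs ht
    show LevEq τ S i (τ (s + t) x) x
    rw [hadd]
    exact (LevEq.shift hadd ht s).trans hs
  neg_mem' := by
    intro t ht
    show LevEq τ S i (τ (-t) x) x
    have h1 := LevEq.shift hadd ht (-t)
    rw [← hadd, neg_add_cancel, h0] at h1
    exact h1.symm

theorem mem_stabLev {h0 : ∀ x, τ 0 x = x} {hadd : ∀ s t x, τ (s + t) x = τ s (τ t x)} {x : X}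
    {t : Eu n} : t ∈ stabLev τ h0 hadd S i x ↔ LevEq τ S i (τ t x) x := Iff.rfl

theorem stabLev_closed [MeasurableSpace X] (hτ : Measurable fun p : Eu n × X => τ p.1 p.2)
    (hS : ∀ j, MeasurableSet (S j)) (h0 : ∀ x, τ 0 x = x)
    (hadd : ∀ s t x, τ (s + t) x = τ s (τ t x)) (x : X) :
    IsClosed (stabLev τ h0 hadd S i x : Set (Eu n)) := by
  have h1 : (stabLev τ h0 hadd S i x : Set (Eu n)) = ⋂ j, ⋂ (_ : j ≤ i), ⋂ c, ⋂ k,
      {t | psi τ (S j) (c + t) (rad k) x = psi τ (S j) c (rad k) x} := by
    ext t
    simp only [mem_iInter, mem_ofPred_eq]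
    constructor
    · intro h j hj c k
      rw [← psi_shift hadd]
      exact h j hj c k
    · intro h j hj c k
      rw [psi_shift hadd]
      exact h j hj c k
  rw [h1]
  refine isClosed_iInter fun j => isClosed_iInter fun _ => isClosed_iInter fun c =>
    isClosed_iInter fun k => isClosed_eq ?_ continuous_const
  exact (psi_cont hτ (hS j) (rad_pos k) x).comp (continuous_const.add continuous_id)

theorem stabLev_anti (h0 : ∀ x, τ 0 x = x) (hadd : ∀ s t x, τ (s + t) x = τ s (τ t x)) (x : X) :
    Antitone fun i => stabLev τ h0 hadd S i x := fun _ _ hij _ ht => LevEq.mono hij ht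

theorem stabLev_shift (h0 : ∀ x, τ 0 x = x) (hadd : ∀ s t x, τ (s + t) x = τ s (τ t x)) (x : X)
    (h : Eu n) : stabLev τ h0 hadd S i (τ h x) = stabLev τ h0 hadd S i x := by
  have key : ∀ (x : X) (h : Eu n), stabLev τ h0 hadd S i x ≤ stabLev τ h0 hadd S i (τ h x) := by
    intro x h t ht
    rw [mem_stabLev] at ht ⊢
    have h1 := LevEq.shift hadd ht h
    rw [← hadd] at h1 ⊢
    rwa [add_comm]
  refine le_antisymm ?_ (key x h)
  have h1 := key (τ h x) (-h)
  rwa [← hadd, neg_add_cancel, h0] at h1

theorem stabLev_congr (h0 : ∀ x, τ 0 x = x) (hadd : ∀ s t x, τ (s + t) x = τ s (τ t x)) {x y : X}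
    (h : LevEq τ S i x y) : stabLev τ h0 hadd S i x = stabLev τ h0 hadd S i y := by
  ext t
  rw [mem_stabLev, mem_stabLev]
  exact ⟨fun h' => ((h.symm.shift hadd t).trans h').trans h,
    fun h' => ((h.shift hadd t).trans h').trans h.symm⟩

end

end Pool.Agent.V8H60.TV
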