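import Mathlib
import Pool.Agent.V8H60.TV.Avg

set_option autoImplicit false
set_option linter.unusedSectionVars false

/-!
# The relation of having the same averages up to a translation is Borel
-/

namespace Pool.Agent.V8H60.TV

open Set Filter Topology MeasureTheory

variable {n : ℕ} {X : Type} [MeasurableSpace X] {τ : Eu n → X → X} {S : ℕ → Set X}

/-- points with the same averages for all sets of a separating family are equal -/
theorem eq_of_levEq (hτ : Measurable fun p : Eu n × X => τ p.1 p.2) (h0 : ∀ x, τ 0 x = x)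
    (hadd : ∀ s t x, τ (s + t) x = τ s (τ t x)) (hS : ∀ j, MeasurableSet (S j))
    (hsep : ∀ x y, (∀ j, x ∈ S j ↔ y ∈ S j) → x = y) {x y : X} (h : ∀ i, LevEq τ S i x y) :
    x = y := by
  have h1 : ∀ᵐ t : Eu n, ∀ j, (τ t x ∈ S j ↔ τ t y ∈ S j) :=
    ae_all_iff.2 fun j => psi_det hτ (hS j) fun c k => h j j le_rfl c k
  obtain ⟨t, ht⟩ := h1.exists
  have h2 := hsep _ _ ht
  have h3 : τ (-t) (τ t x) = τ (-t) (τ t y) := by rw [h2]
  rwa [← hadd, ← hadd, neg_add_cancel, h0, h0] at h3

/-- the averages are invariant under a commuting map that preserves the sets -/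
theorem levEq_inv {i : ℕ} {x : X} (v : X → X) (hv : ∀ t, τ t (v x) = v (τ t x))
    (hS : ∀ j ≤ i, ∀ z, v z ∈ S j ↔ z ∈ S j) : LevEq τ S i (v x) x := by
  intro j hj c k
  unfold psi
  have h1 : {t : Eu n | τ t (v x) ∈ S j} = {t : Eu n | τ t x ∈ S j} := by
    ext t
    rw [mem_ofPred_eq, mem_ofPred_eq, hv, hS j hj]
  rw [h1]

theorem levEq_iff_dense (hτ : Measurable fun p : Eu n × X => τ p.1 p.2)
    (hS : ∀ j, MeasurableSet (S j)) {d : ℕ → Eu n} (hd : DenseRange d) (i : ℕ) (x y : X) :
    LevEq τ S i x y ↔ ∀ j ≤ i, ∀ m k, psi τ (S j) (d m) (rad k) x = psi τ (S j) (d m) (rad k) y := by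
  constructor
  · intro h j hj m k
    exact h j hj (d m) k
  · intro h j hj c k
    have h1 : (fun c => psi τ (S j) c (rad k) x) = fun c => psi τ (S j) c (rad k) y := by
      refine hd.equalizer (psi_cont hτ (hS j) (rad_pos k) x) (psi_cont hτ (hS j) (rad_pos k) y) ?_
      funext m
      exact h j hj m k
    exact congrFun h1 c

theorem levEq_meas (hτ : Measurable fun p : Eu n × X => τ p.1 p.2)
    (hS : ∀ j, MeasurableSet (S j)) (i : ℕ) (s : X) : MeasurableSet {x | LevEq τ S i x s} := by
  let d : ℕ → Eu n := TopologicalSpace.denseSeq (Eu n)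
  have hd : DenseRange d := TopologicalSpace.denseRange_denseSeq _
  have h1 : {x | LevEq τ S i x s} = ⋂ j, ⋂ (_ : j ≤ i), ⋂ m, ⋂ k,
      {x | psi τ (S j) (d m) (rad k) x = psi τ (S j) (d m) (rad k) s} := by
    ext x
    simp only [mem_iInter, mem_ofPred_eq]
    exact levEq_iff_dense hτ hS hd i x s
  rw [h1]
  refine MeasurableSet.iInter fun j => MeasurableSet.iInter fun _ => MeasurableSet.iInter fun m =>
    MeasurableSet.iInter fun k => ?_
  exact measurableSet_eq_fun (psi_meas hτ (hS j) _ _) measurable_const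

/-- equality of the averages up to a translation -/
def LevRel (τ : Eu n → X → X) (S : ℕ → Set X) (i : ℕ) (x y : X) : Prop :=
  ∃ h : Eu n, LevEq τ S i (τ h x) y

theorem levRel_equiv (h0 : ∀ x, τ 0 x = x) (hadd : ∀ s t x, τ (s + t) x = τ s (τ t x)) (i : ℕ) :
    Equivalence (LevRel τ S i) := by
  refine ⟨fun x => ⟨0, by rw [h0]; exact LevEq.refl x⟩, ?_, ?_⟩
  · rintro x y ⟨h, hh⟩
    refine ⟨-h, ?_⟩
    have h1 := hh.shift hadd (-h)
    rw [← hadd, neg_add_cancel, h0] at h1
    exact h1.symm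
  · rintro x y z ⟨h, hh⟩ ⟨h', hh'⟩
    refine ⟨h' + h, ?_⟩
    rw [hadd]
    exact (hh.shift hadd h').trans hh'

theorem levRel_meas (hτ : Measurable fun p : Eu n × X => τ p.1 p.2)
    (hadd : ∀ s t x, τ (s + t) x = τ s (τ t x)) (hS : ∀ j, MeasurableSet (S j)) (i : ℕ) :
    MeasurableSet {p : X × X | LevRel τ S i p.1 p.2} := by
  let d : ℕ → Eu n := TopologicalSpace.denseSeq (Eu n)
  have hd : DenseRange d := TopologicalSpace.denseRange_denseSeq _
  have h1 : {p : X × X | LevRel τ S i p.1 p.2} = ⋃ N : ℕ, ⋂ M : ℕ, ⋃ l : ℕ,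
      {p : X × X | ‖d l‖ ≤ N ∧ ∀ j ≤ i, ∀ m ≤ M, ∀ k ≤ M,
        |psi τ (S j) (d m) (rad k) (τ (d l) p.1) - psi τ (S j) (d m) (rad k) p.2| ≤ rad M} := by
    ext ⟨x, y⟩
    simp only [mem_iUnion, mem_iInter, mem_ofPred_eq]
    constructor
    · rintro ⟨h, hh⟩
      obtain ⟨N, hN⟩ := exists_nat_gt ‖h‖
      refine ⟨N, fun M => ?_⟩
      have h2 : ∀ᶠ h' in 𝓝 h, ‖h'‖ < N := continuous_norm.continuousAt.eventually_lt_const hN
      have h3 : ∀ j ≤ i, ∀ m k, ∀ᶠ h' in 𝓝 h,
          |psi τ (S j) (d m) (rad k) (τ h' x) - psi τ (S j) (d m) (rad k) y| < rad M := by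
        intro j hj m k
        have h4 : Continuous fun h' => |psi τ (S j) (d m) (rad k) (τ h' x) -
            psi τ (S j) (d m) (rad k) y| := by
          have h5 : (fun h' => |psi τ (S j) (d m) (rad k) (τ h' x) -
              psi τ (S j) (d m) (rad k) y|) = fun h' => |psi τ (S j) (d m + h') (rad k) x -
              psi τ (S j) (d m) (rad k) y| := by
            funext h'
            rw [psi_shift hadd]
          rw [h5]
          exact (((psi_cont hτ (hS j) (rad_pos k) x).comp
            (continuous_const.add continuous_id)).sub continuous_const).abs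
        refine h4.continuousAt.eventually_lt_const ?_
        show |psi τ (S j) (d m) (rad k) (τ h x) - psi τ (S j) (d m) (rad k) y| < rad M
        rw [hh j hj (d m) k, sub_self, abs_zero]
        exact rad_pos M
      have h6 : ∀ᶠ h' in 𝓝 h, ∀ j ∈ Iic i, ∀ m ∈ Iic M, ∀ k ∈ Iic M,
          |psi τ (S j) (d m) (rad k) (τ h' x) - psi τ (S j) (d m) (rad k) y| < rad M := by
        rw [eventually_all_finite (finite_Iic i)]
        intro j hj
        rw [eventually_all_finite (finite_Iic M)]
        intro m _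
        rw [eventually_all_finite (finite_Iic M)]
        intro k _
        exact h3 j hj m k
      obtain ⟨O, hO1, hO2, hO3⟩ := eventually_nhds_iff.1 (h2.and h6)
      obtain ⟨l, hl⟩ := hd.exists_mem_open hO2 ⟨h, hO3⟩
      obtain ⟨h7, h8⟩ := hO1 _ hl
      exact ⟨l, h7.le, fun j hj m hm k hk => (h8 j hj m hm k hk).le⟩
    · rintro ⟨N, hN⟩
      choose l hl1 hl2 using hN
      obtain ⟨h, -, φ, hφ, hlim⟩ := (isCompact_closedBall (0 : Eu n) (N : ℝ)).tendsto_subseq
        (x := fun M => d (l M)) (fun M => by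
          rw [mem_closedBall_zero_iff]
          exact hl1 M)
      refine ⟨h, (levEq_iff_dense hτ hS hd i _ _).2 fun j hj m k => ?_⟩
      have h4 : Tendsto (fun M => psi τ (S j) (d m) (rad k) (τ (d (l (φ M))) x)) atTop
          (𝓝 (psi τ (S j) (d m) (rad k) (τ h x))) := by
        have h5 : Continuous fun h' => psi τ (S j) (d m) (rad k) (τ h' x) := by
          have h6 : (fun h' => psi τ (S j) (d m) (rad k) (τ h' x)) =
              fun h' => psi τ (S j) (d m + h') (rad k) x := by
            funext h'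
            rw [psi_shift hadd]
          rw [h6]
          exact (psi_cont hτ (hS j) (rad_pos k) x).comp (continuous_const.add continuous_id)
        exact (h5.tendsto h).comp hlim
      have h5 : Tendsto (fun M => psi τ (S j) (d m) (rad k) (τ (d (l (φ M))) x)) atTop
          (𝓝 (psi τ (S j) (d m) (rad k) y)) := by
        rw [tendsto_iff_dist_tendsto_zero]
        refine squeeze_zero' (Eventually.of_forall fun M => dist_nonneg) ?_
          (rad_tendsto.comp hφ.tendsto_atTop)
        filter_upwards [eventually_ge_atTop (max m k)] with M hM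
        have h6 : max m k ≤ φ M := hM.trans (hφ.id_le M)
        exact hl2 (φ M) j hj m ((le_max_left _ _).trans h6) k ((le_max_right _ _).trans h6)
      exact tendsto_nhds_unique h4 h5
  rw [h1]
  refine MeasurableSet.iUnion fun N => MeasurableSet.iInter fun M => MeasurableSet.iUnion fun l => ?_
  have h2 : {p : X × X | ‖d l‖ ≤ N ∧ ∀ j ≤ i, ∀ m ≤ M, ∀ k ≤ M,
      |psi τ (S j) (d m) (rad k) (τ (d l) p.1) - psi τ (S j) (d m) (rad k) p.2| ≤ rad M} =
      {p : X × X | ‖d l‖ ≤ N} ∩ ⋂ j, ⋂ (_ : j ≤ i), ⋂ m, ⋂ (_ : m ≤ M), ⋂ k, ⋂ (_ : k ≤ M),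
      {p : X × X | |psi τ (S j) (d m) (rad k) (τ (d l) p.1) -
        psi τ (S j) (d m) (rad k) p.2| ≤ rad M} := by
    ext p
    simp only [mem_inter_iff, mem_iInter, mem_ofPred_eq]
  rw [h2]
  refine (MeasurableSet.const _).inter (MeasurableSet.iInter fun j => MeasurableSet.iInter fun _ =>
    MeasurableSet.iInter fun m => MeasurableSet.iInter fun _ => MeasurableSet.iInter fun k =>
    MeasurableSet.iInter fun _ => ?_)
  have h3 : Measurable fun p : X × X => psi τ (S j) (d m) (rad k) (τ (d l) p.1) :=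
    (psi_meas hτ (hS j) _ _).comp (hτ.comp (measurable_const.prodMk measurable_fst))
  have h4 : Measurable fun p : X × X => psi τ (S j) (d m) (rad k) p.2 :=
    (psi_meas hτ (hS j) _ _).comp measurable_snd
  exact measurableSet_le (continuous_abs.measurable.comp (h3.sub h4)) measurable_const

end Pool.Agent.V8H60.TV
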