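import Mathlib
import Pool.Agent.V8H60.TV.Lev
import Pool.Agent.V8H60.TV.Sep
import Pool.Agent.V8H60.TV.Perm

set_option autoImplicit false
set_option linter.unusedSectionVars false

/-!
# Products of nonarchimedean groups with vector groups
-/

namespace Pool.Agent.V8H60.TV

open Set Filter Topology MeasureTheory
open Function (Surjective Injective)

/-- A perfect set with countable sections for an analytic relation contains a perfect set of
independent points. -/
theorem perfect_of_countable' {P X : Type} [TopologicalSpace P] [PolishSpace P]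
    [MeasurableSpace P] [BorelSpace P] [MeasurableSpace X] [StandardBorelSpace X] {a : P × X → X}
    (ha : Measurable a) {f : (ℕ → Bool) → X} (hf : Measurable f)
    (hcount : ∀ b, {b' | ∃ p : P, a (p, f b) = f b'}.Countable) :
    ∃ c : (ℕ → Bool) → (ℕ → Bool), Continuous c ∧
      ∀ b b', b ≠ b' → ¬ ∃ p : P, a (p, f (c b)) = f (c b') := by
  have hana : AnalyticSet {p : (ℕ → Bool) × (ℕ → Bool) | ∃ g : P, a (g, f p.1) = f p.2} := by
    let _ := upgradeStandardBorel X
    have _ : PolishSpace (ℕ → Bool) := {}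
    have h1 : MeasurableSet {q : P × ((ℕ → Bool) × (ℕ → Bool)) | a (q.1, f q.2.1) = f q.2.2} := by
      apply measurableSet_eq_fun
      · exact ha.comp (measurable_fst.prodMk (hf.comp (measurable_fst.comp measurable_snd)))
      · exact hf.comp (measurable_snd.comp measurable_snd)
    have h2 := h1.analyticSet.image_of_continuous (continuous_snd (X := P))
    have h3 : Prod.snd '' {q : P × ((ℕ → Bool) × (ℕ → Bool)) | a (q.1, f q.2.1) = f q.2.2} =
        {p : (ℕ → Bool) × (ℕ → Bool) | ∃ g : P, a (g, f p.1) = f p.2} := by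
      ext p
      constructor
      · rintro ⟨⟨g, p'⟩, hg, rfl⟩
        exact ⟨g, hg⟩
      · rintro ⟨g, hg⟩
        exact ⟨(g, p), hg, rfl⟩
    rwa [h3] at h2
  exact Pool.Agent.H566W.perfect_independent
    (fun b b' => ∃ g : P, a (g, f b) = f b') hana hcount

/-- A family of pairs which are far from each other is countable. -/
theorem countable_of_far' {n : ℕ} {W T : Type} [TopologicalSpace W] [Group W]
    [IsTopologicalGroup W] [PolishSpace W] {V : Subgroup W} (hV : IsOpen (V : Set W)) {ε : ℝ}
    (hε : 0 < ε) (γ : T → W) (θ : T → Eu n)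
    (h : ∀ a b, γ a * (γ b)⁻¹ ∈ V → ‖θ a - θ b‖ < ε → a = b) : Countable T := by
  let d : ℕ → W := TopologicalSpace.denseSeq W
  have hd : DenseRange d := TopologicalSpace.denseRange_denseSeq _
  let e : ℕ → Eu n := TopologicalSpace.denseSeq (Eu n)
  have he : DenseRange e := TopologicalSpace.denseRange_denseSeq _
  have h1 : ∀ a : T, ∃ j, γ a * (d j)⁻¹ ∈ V := by
    intro a
    obtain ⟨j, hj⟩ := hd.exists_mem_open (s := {x : W | γ a * x⁻¹ ∈ V})
      (hV.preimage (continuous_const.mul continuous_inv))
      ⟨γ a, by show γ a * (γ a)⁻¹ ∈ V; rw [mul_inv_cancel]; exact V.one_mem⟩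
    exact ⟨j, hj⟩
  have h2 : ∀ a : T, ∃ m, dist (θ a) (e m) < ε / 2 := fun a =>
    he.exists_dist_lt (θ a) (half_pos hε)
  choose j hj using h1
  choose m hm using h2
  have hinj : Injective fun a => (j a, m a) := by
    intro a b hab
    have hjab : j a = j b := congrArg Prod.fst hab
    have hmab : m a = m b := congrArg Prod.snd hab
    refine h a b ?_ ?_
    · have h3 := V.mul_mem (hj a) (V.inv_mem (hj b))
      rw [hjab] at h3
      have h4 : γ a * (d (j b))⁻¹ * (γ b * (d (j b))⁻¹)⁻¹ = γ a * (γ b)⁻¹ := by group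
      rwa [h4] at h3
    · rw [← dist_eq_norm]
      have h3 := hm a
      rw [hmab] at h3
      have h4 := hm b
      rw [dist_comm] at h4
      linarith [dist_triangle (θ a) (e (m b)) (θ b)]
  exact hinj.countable

section Core

variable {n : ℕ} {W X : Type} [TopologicalSpace W] [Group W] [NonarchimedeanGroup W]
  [PolishSpace W] [MeasurableSpace W] [BorelSpace W] [MeasurableSpace X] [StandardBorelSpace X]
  [MulAction W X]

/-- The dichotomy for commuting actions of a nonarchimedean group and of a Euclidean space. -/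
theorem dich_vec (hW : TVC W) (hm : Measurable fun p : W × X => p.1 • p.2) {τ : Eu n → X → X}
    (hτ : Measurable fun p : Eu n × X => τ p.1 p.2) (h0 : ∀ x, τ 0 x = x)
    (hadd : ∀ s t x, τ (s + t) x = τ s (τ t x)) (hcom : ∀ (w : W) t x, τ t (w • x) = w • τ t x) :
    (∃ C : Set X, C.Countable ∧ ∀ x, ∃ s ∈ C, ∃ (w : W) (t : Eu n), w • τ t s = x) ∨
      ∃ f : (ℕ → Bool) → X, Measurable f ∧
        ∀ a b, a ≠ b → ¬ ∃ (w : W) (t : Eu n), w • τ t (f a) = f b := by
  obtain ⟨V₀, S, hV₀, hS, hVS, hsep⟩ := exists_family hm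
  -- the joint action
  let act : (W × Eu n) × X → X := fun p => p.1.1 • τ p.1.2 p.2
  have hact : Measurable act := hm.comp ((measurable_fst.comp measurable_fst).prodMk
    (hτ.comp ((measurable_snd.comp measurable_fst).prodMk measurable_snd)))
  -- decreasing open subgroups
  let V : ℕ → Subgroup W := fun i => ⨅ j : Fin (i + 1), V₀ j
  have hV : ∀ i, IsOpen (V i : Set W) := by
    intro i
    have : (V i : Set W) = ⋂ j : Fin (i + 1), (V₀ j : Set W) := Subgroup.coe_iInf
    rw [this]
    exact isOpen_iInter_of_finite fun j => hV₀ j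
  have hVj : ∀ i j, j ≤ i → V i ≤ V₀ j := fun i j hj =>
    iInf_le (fun j : Fin (i + 1) => V₀ j) ⟨j, Nat.lt_succ_of_le hj⟩
  have hinv : ∀ i, ∀ v ∈ V i, ∀ x, LevEq τ S i (v • x) x := fun i v hv x =>
    levEq_inv (fun x => v • x) (fun t => hcom v t x) fun j hj z => hVS j v (hVj i j hj hv) z
  have hdiff : ∀ (w w' : W) (t t' : Eu n) (x : X),
      w • τ t x = (w * w'⁻¹) • τ (t - t') (w' • τ t' x) := by
    intro w w' t t' x
    rw [hcom, ← hadd, sub_add_cancel, mul_smul, inv_smul_smul]
  by_cases hperf : ∃ f : (ℕ → Bool) → X, Measurable f ∧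
        ∀ a b, a ≠ b → ¬ ∃ (w : W) (t : Eu n), w • τ t (f a) = f b
  · exact Or.inr hperf
  left
  -- countably many classes at every level
  have hreps : ∀ i, ∃ R : Set X, R.Countable ∧ ∀ x, ∃ s ∈ R, LevRel τ S i x s := by
    intro i
    let _ := upgradeStandardBorel X
    rcases Pool.Agent.H579R3.SV.silver (levRel_equiv (S := S) h0 hadd i)
      (levRel_meas hτ hadd hS i) (MeasurableSet.univ (α := X)).analyticSet with
      ⟨R, -, hR, hR2⟩ | ⟨f, hf, -, hf2⟩
    · exact ⟨R, hR, fun x => hR2 x (mem_univ x)⟩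
    · exfalso
      have hsec : ∀ b, {b' | ∃ p : W × Eu n, act (p, f b) = f b'}.Countable := by
        intro b
        choose p hp using fun b' : {b' | ∃ p : W × Eu n, act (p, f b) = f b'} => b'.2
        refine countable_of_far' (hV i) one_pos (fun b' => (p b').1) (fun b' => (p b').2)
          fun a c hac _ => ?_
        by_contra hne
        refine hf2 c a (fun e => hne (Subtype.ext e).symm) ⟨(p a).2 - (p c).2, ?_⟩
        have h1 : (p a).1 • τ (p a).2 (f b) = f a := hp a
        have h2 : (p c).1 • τ (p c).2 (f b) = f c := hp c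
        rw [hdiff (p a).1 (p c).1 (p a).2 (p c).2, h2] at h1
        have h3 := hinv i _ hac (τ ((p a).2 - (p c).2) (f c))
        rw [h1] at h3
        exact h3.symm
      obtain ⟨c, hc, hc2⟩ := perfect_of_countable' hact hf.measurable hsec
      exact hperf ⟨fun b => f (c b), hf.measurable.comp hc.measurable, fun a b hab ⟨w, t, h⟩ =>
        hc2 a b hab ⟨(w, t), h⟩⟩
  choose R hR hR2 using hreps
  -- the pieces
  let A : ℕ → X → Set X := fun i s => {x | LevEq τ S i x s ∧
    ∀ v ∈ linPart (stabLev τ h0 hadd S i s), τ v x = x}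
  have hfix : ∀ x (v : Eu n), τ v x = x ↔ ∀ i, v ∈ stabLev τ h0 hadd S i x := by
    intro x v
    constructor
    · intro h i
      rw [mem_stabLev, h]
      exact LevEq.refl x
    · intro h
      exact eq_of_levEq hτ h0 hadd hS hsep fun i => h i
  have hAm : ∀ i s, MeasurableSet (A i s) := by
    intro i s
    suffices h9 : MeasurableSet {x | ∀ v ∈ linPart (stabLev τ h0 hadd S i s), τ v x = x} from
      (levEq_meas hτ hS i s).inter h9
    obtain ⟨D, hDc, hDd⟩ := TopologicalSpace.exists_countable_dense
      (linPart (stabLev τ h0 hadd S i s))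
    have h1 : {x | ∀ v ∈ linPart (stabLev τ h0 hadd S i s), τ v x = x} =
        ⋂ v ∈ D, {x | τ (v : Eu n) x = x} := by
      ext x
      simp only [mem_iInter, mem_ofPred_eq]
      constructor
      · intro h v _
        exact h v v.2
      · intro h v hv
        have hcl : IsClosed {v : linPart (stabLev τ h0 hadd S i s) | τ (v : Eu n) x = x} := by
          have h2 : {v : linPart (stabLev τ h0 hadd S i s) | τ (v : Eu n) x = x} =
              ⋂ j, Subtype.val ⁻¹' (stabLev τ h0 hadd S j x : Set (Eu n)) := by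
            ext v
            simp only [mem_iInter, mem_ofPred_eq, mem_preimage, SetLike.mem_coe]
            exact hfix x v
          rw [h2]
          exact isClosed_iInter fun j =>
            (stabLev_closed hτ hS h0 hadd x).preimage continuous_subtype_val
        have h3 : (univ : Set (linPart (stabLev τ h0 hadd S i s))) ⊆ {v | τ (v : Eu n) x = x} := by
          rw [← hDd.closure_eq]
          exact hcl.closure_subset_iff.2 fun v hv => h v hv
        exact h3 (mem_univ ⟨v, hv⟩)
    rw [h1]
    refine MeasurableSet.biInter hDc fun v _ => ?_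
    exact measurableSet_eq_fun (hτ.comp (measurable_const.prodMk measurable_id)) measurable_id
  -- every piece meets countably many orbits
  have hpiece : ∀ i s, ∃ C : Set X, C.Countable ∧ ∀ x ∈ A i s, ∃ c ∈ C, ∃ v : W, v • c = x := by
    intro i s
    let Y : SubMulAction (V i) X := ⟨A i s, by
      rintro v x ⟨hx1, hx2⟩
      refine ⟨(hinv i v v.2 x).trans hx1, fun u hu => ?_⟩
      show τ u ((v : W) • x) = (v : W) • x
      rw [hcom, hx2 u hu]⟩
    have _ : StandardBorelSpace Y := (hAm i s).standardBorel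
    have hmY : Measurable fun r : V i × Y => r.1 • r.2 :=
      Measurable.subtype_mk (hm.comp ((measurable_subtype_coe.comp measurable_fst).prodMk
        (measurable_subtype_coe.comp measurable_snd)))
    have _ : MeasurableSMul₂ (V i) Y := ⟨hmY⟩
    rcases tvc_down (hV i) hW Y with h1 | ⟨f, hf, hf2⟩
    · rw [countable_orbits_iff] at h1
      obtain ⟨C, hC, hC2⟩ := h1
      refine ⟨Subtype.val '' C, hC.image _, fun x hx => ?_⟩
      obtain ⟨c, hc, v, hv⟩ := hC2 ⟨x, hx⟩
      exact ⟨c, ⟨c, hc, rfl⟩, v, congrArg Subtype.val hv⟩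
    · exfalso
      have hfX : Measurable fun b => (f b : X) := measurable_subtype_coe.comp hf
      obtain ⟨ε, hε, hε2⟩ := exists_eps (stabLev τ h0 hadd S i s)
        (stabLev_closed hτ hS h0 hadd s)
      have hsec : ∀ b, {b' | ∃ p : W × Eu n, act (p, (f b : X)) = (f b' : X)}.Countable := by
        intro b
        choose p hp using fun b' : {b' | ∃ p : W × Eu n, act (p, (f b : X)) = (f b' : X)} => b'.2
        refine countable_of_far' (hV i) hε (fun b' => (p b').1) (fun b' => (p b').2)
          fun a c hac hac2 => ?_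
        by_contra hne
        have h1 : (p a).1 • τ (p a).2 (f b : X) = (f a : X) := hp a
        have h2 : (p c).1 • τ (p c).2 (f b : X) = (f c : X) := hp c
        rw [hdiff (p a).1 (p c).1 (p a).2 (p c).2, h2] at h1
        have h3 := hinv i _ hac (τ ((p a).2 - (p c).2) (f c : X))
        rw [h1] at h3
        have h4 : (p a).2 - (p c).2 ∈ stabLev τ h0 hadd S i s := by
          rw [← stabLev_congr h0 hadd (f c).2.1, mem_stabLev]
          exact h3.symm.trans (((f a).2.1).trans ((f c).2.1).symm)
        have h5 := (f c).2.2 _ (hε2 _ h4 hac2)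
        rw [h5] at h1
        refine hf2 c a (fun e => hne (Subtype.ext e).symm) ⟨⟨_, hac⟩, Subtype.ext h1⟩
      obtain ⟨c, hc, hc2⟩ := perfect_of_countable' hact hfX hsec
      exact hperf ⟨fun b => (f (c b) : X), hfX.comp hc.measurable, fun a b hab ⟨w, t, h⟩ =>
        hc2 a b hab ⟨(w, t), h⟩⟩
  choose C hC hC2 using hpiece
  refine ⟨⋃ i, ⋃ s ∈ R i, C i s, countable_iUnion fun i => (hR i).biUnion fun s _ => hC i s,
    fun x => ?_⟩
  obtain ⟨i, hi⟩ := exists_stable (fun i => stabLev τ h0 hadd S i x) (stabLev_anti h0 hadd x)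
  obtain ⟨s, hs, h, hh⟩ := hR2 i x
  have hst : stabLev τ h0 hadd S i s = stabLev τ h0 hadd S i x := by
    rw [← stabLev_congr h0 hadd hh, stabLev_shift]
  have hy : τ h x ∈ A i s := by
    refine ⟨hh, fun v hv => ?_⟩
    rw [hst] at hv
    have h1 : τ v x = x := (hfix x v).2 fun j => hi j v hv
    rw [← hadd, add_comm, hadd, h1]
  obtain ⟨c, hc, w, hw⟩ := hC2 i s _ hy
  refine ⟨c, mem_iUnion.2 ⟨i, mem_iUnion₂.2 ⟨s, hs, hc⟩⟩, w, -h, ?_⟩
  rw [← hcom, hw, ← hadd, neg_add_cancel, h0]

end Core

end Pool.Agent.V8H60.TV
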