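import Mathlib
import Pool.Agent.V8H60.TV.Vec
import Pool.Agent.V8H60.TV.LcPolish

set_option autoImplicit false
set_option linter.unusedSectionVars false

/-!
# Products of nonarchimedean groups with locally compact groups: free actions of the second factor
-/

namespace Pool.Agent.V8H60.TV

open Set Filter Topology MeasureTheory
open Function (Surjective Injective)

/-- A family in a separable group whose members are far from each other is countable. -/
theorem countable_of_far2 {G T : Type} [TopologicalSpace G] [Group G] [IsTopologicalGroup G]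
    [SecondCountableTopology G] {O : Set G} (hO : O ∈ 𝓝 (1 : G)) (γ : T → G)
    (h : ∀ a b, γ a * (γ b)⁻¹ ∈ O → a = b) : Countable T := by
  obtain ⟨V, hV, hVO⟩ := exists_nhds_split_inv hO
  let d : ℕ → G := TopologicalSpace.denseSeq G
  have hd : DenseRange d := TopologicalSpace.denseRange_denseSeq _
  have h1 : ∀ a : T, ∃ j, γ a * (d j)⁻¹ ∈ V := by
    intro a
    obtain ⟨j, hj⟩ := hd.exists_mem_open (s := {x : G | γ a * x⁻¹ ∈ interior V})
      (isOpen_interior.preimage (continuous_const.mul continuous_inv))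
      ⟨γ a, by
        show γ a * (γ a)⁻¹ ∈ interior V
        rw [mul_inv_cancel]
        exact mem_interior_iff_mem_nhds.2 hV⟩
    exact ⟨j, interior_subset hj⟩
  choose j hj using h1
  have hinj : Injective j := by
    intro a b hab
    refine h a b ?_
    have h2 := hVO _ (hj a) _ (hj b)
    rw [hab] at h2
    have h3 : γ a * (d (j b))⁻¹ / (γ b * (d (j b))⁻¹) = γ a * (γ b)⁻¹ := by
      rw [div_eq_mul_inv]
      group
    rwa [h3] at h2
  exact hinj.countable

/-- A closed subgroup with a compact open subgroup. -/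
def Good {H : Type} [TopologicalSpace H] [Group H] (T : Subgroup H) : Prop :=
  ∃ K : Subgroup H, IsCompact (K : Set H) ∧ K ≤ T ∧ ∃ U ∈ 𝓝 (1 : H), ∀ h ∈ T, h ∈ U → h ∈ K

/-- If the intersection of a decreasing sequence of closed subgroups of a locally compact group is
trivial, then one of them has a compact open subgroup. -/
theorem exists_good {H : Type} [TopologicalSpace H] [Group H] [IsTopologicalGroup H] [T2Space H]
    [LocallyCompactSpace H] (T : ℕ → Subgroup H) (hT : Antitone T)
    (hc : ∀ i, IsClosed (T i : Set H)) (h1 : ∀ h, (∀ i, h ∈ T i) → h = 1) : ∃ i, Good (T i) := by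
  obtain ⟨C, hC, hC1⟩ := exists_compact_mem_nhds (1 : H)
  obtain ⟨V, hV, hVC⟩ := exists_nhds_split_inv hC1
  have h2 : ∃ i, (T i : Set H) ∩ (C \ interior V) = ∅ := by
    by_contra hcon
    push Not at hcon
    have h3 := IsCompact.nonempty_iInter_of_sequence_nonempty_isCompact_isClosed
      (fun i => (T i : Set H) ∩ (C \ interior V))
      (fun i => inter_subset_inter_left _ (hT (Nat.le_succ i)))
      (fun i => hcon i)
      ((hC.diff isOpen_interior).inter_left (hc 0))
      (fun i => (hc i).inter (hC.diff isOpen_interior).isClosed)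
    obtain ⟨h, hh⟩ := h3
    rw [mem_iInter] at hh
    have h4 : h = 1 := h1 h fun i => (hh i).1
    exact (hh 0).2.2 (h4 ▸ mem_interior_iff_mem_nhds.2 hV)
  obtain ⟨i, hi⟩ := h2
  have h3 : ∀ h ∈ T i, h ∈ C → h ∈ V := by
    intro h hh hhC
    by_contra hn
    exact (hi ▸ (⟨hh, hhC, fun h' => hn (interior_subset h')⟩ :
      h ∈ (T i : Set H) ∩ (C \ interior V)) : h ∈ (∅ : Set H))
  refine ⟨i, Subgroup.ofDiv ((T i : Set H) ∩ C) ⟨1, (T i).one_mem, mem_of_mem_nhds hC1⟩ ?_,
    hC.inter_left (hc i), fun h hh => hh.1, C, hC1, fun h hh hhC => ⟨hh, hhC⟩⟩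
  rintro x ⟨hx, hxC⟩ y ⟨hy, hyC⟩
  refine ⟨(T i).mul_mem hx ((T i).inv_mem hy), ?_⟩
  have h4 := hVC _ (h3 x hx hxC) _ (h3 y hy hyC)
  rwa [div_eq_mul_inv] at h4

theorem Good.conj {H : Type} [TopologicalSpace H] [Group H] [IsTopologicalGroup H]
    {T T' : Subgroup H} (g : H) (h : ∀ x, x ∈ T' ↔ g⁻¹ * x * g ∈ T) (hT : Good T) : Good T' := by
  obtain ⟨K, hK, hKT, U, hU, hUK⟩ := hT
  have hmem : ∀ x, x ∈ K.map (MulAut.conj g).toMonoidHom ↔ g⁻¹ * x * g ∈ K := by
    intro x
    rw [Subgroup.mem_map]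
    constructor
    · rintro ⟨k, hk, rfl⟩
      have h1 : g⁻¹ * ((MulAut.conj g).toMonoidHom k) * g = k := by
        show g⁻¹ * (g * k * g⁻¹) * g = k
        group
      rwa [h1]
    · intro hx
      refine ⟨_, hx, ?_⟩
      show g * (g⁻¹ * x * g) * g⁻¹ = x
      group
  refine ⟨K.map (MulAut.conj g).toMonoidHom, ?_, ?_, {x | g⁻¹ * x * g ∈ U}, ?_, ?_⟩
  · rw [Subgroup.coe_map]
    refine hK.image ?_
    show Continuous fun k => g * k * g⁻¹
    fun_prop
  · intro x hx
    exact (h x).2 (hKT ((hmem x).1 hx))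
  · have h1 : Continuous fun x : H => g⁻¹ * x * g := by fun_prop
    have h2 : U ∈ 𝓝 (g⁻¹ * 1 * g) := by
      rw [mul_one, inv_mul_cancel]
      exact hU
    exact h1.continuousAt h2
  · intro x hx hxU
    exact (hmem x).2 (hUK _ ((h x).1 hx) hxU)

section Alg

variable {H X : Type} [Group H] [MulAction H X] {Ψ : ℕ → X → ℝ} {i : ℕ}

/-- equality of the first functions along the orbits -/
def FEq (H : Type) {X : Type} [Group H] [MulAction H X] (Ψ : ℕ → X → ℝ) (i : ℕ) (x y : X) : Prop :=
  ∀ k ≤ i, ∀ h : H, Ψ k (h • x) = Ψ k (h • y)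

theorem FEq.refl (x : X) : FEq H Ψ i x x := fun _ _ _ => rfl

theorem FEq.symm {x y : X} (h : FEq H Ψ i x y) : FEq H Ψ i y x := fun k hk g => (h k hk g).symm

theorem FEq.trans {x y z : X} (h : FEq H Ψ i x y) (h' : FEq H Ψ i y z) : FEq H Ψ i x z :=
  fun k hk g => (h k hk g).trans (h' k hk g)

theorem FEq.mono {i' : ℕ} (hi : i' ≤ i) {x y : X} (h : FEq H Ψ i x y) : FEq H Ψ i' x y :=
  fun k hk g => h k (hk.trans hi) g

theorem FEq.shift {x y : X} (h : FEq H Ψ i x y) (g : H) : FEq H Ψ i (g • x) (g • y) := by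
  intro k hk g'
  rw [smul_smul, smul_smul]
  exact h k hk _

/-- the subgroup of all elements which preserve the functions along the orbit -/
def fStab (H : Type) {X : Type} [Group H] [MulAction H X] (Ψ : ℕ → X → ℝ) (i : ℕ) (x : X) : Subgroup H where
  carrier := {h | FEq H Ψ i (h • x) x}
  one_mem' := by
    show FEq H Ψ i ((1 : H) • x) x
    rw [one_smul]
    exact fun _ _ _ => rfl
  mul_mem' := by
    intro a b ha hb
    show FEq H Ψ i ((a * b) • x) x
    rw [mul_smul]
    exact fun k hk g => (FEq.shift (show FEq H Ψ i (b • x) x from hb) a k hk g).trans (ha k hk g)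
  inv_mem' := by
    intro h hh
    show FEq H Ψ i (h⁻¹ • x) x
    have h1 := FEq.shift (show FEq H Ψ i (h • x) x from hh) h⁻¹
    rw [inv_smul_smul] at h1
    exact fun k hk g => (h1 k hk g).symm

theorem mem_fStab {x : X} {h : H} : h ∈ fStab H Ψ i x ↔ FEq H Ψ i (h • x) x := Iff.rfl

theorem fStab_anti (x : X) : Antitone fun i => fStab H Ψ i x :=
  fun _ _ hij _ hh => FEq.mono hij hh

theorem fStab_congr {x y : X} (h : FEq H Ψ i x y) : fStab H Ψ i x = fStab H Ψ i y := by
  ext t
  rw [mem_fStab, mem_fStab]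
  exact ⟨fun h' => ((h.symm.shift t).trans h').trans h,
    fun h' => ((h.shift t).trans h').trans h.symm⟩

theorem mem_fStab_smul {x : X} (g t : H) :
    t ∈ fStab H Ψ i (g • x) ↔ g⁻¹ * t * g ∈ fStab H Ψ i x := by
  rw [mem_fStab, mem_fStab, mul_smul, mul_smul]
  constructor
  · intro h
    have h1 := h.shift g⁻¹
    rwa [inv_smul_smul] at h1
  · intro h
    have h1 := h.shift g
    rwa [smul_inv_smul] at h1

end Alg

section Core

variable {W H X : Type} [TopologicalSpace W] [Group W] [IsTopologicalGroup W]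
  [PolishSpace W] [MeasurableSpace W] [BorelSpace W] [TopologicalSpace H] [Group H]
  [IsTopologicalGroup H] [PolishSpace H] [LocallyCompactSpace H] [MeasurableSpace H] [BorelSpace H]
  [MeasurableSpace X] [StandardBorelSpace X] [MulAction W X] [MulAction H X] {Ψ : ℕ → X → ℝ}
  {i : ℕ}

theorem fStab_closed (hc : ∀ k x, Continuous fun h : H => Ψ k (h • x)) (x : X) :
    IsClosed (fStab H Ψ i x : Set H) := by
  have h1 : (fStab H Ψ i x : Set H) = ⋂ k, ⋂ (_ : k ≤ i), ⋂ g : H,
      {h | Ψ k ((g * h) • x) = Ψ k (g • x)} := by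
    ext h
    simp only [mem_iInter, mem_ofPred_eq]
    constructor
    · intro hh k hk g
      rw [mul_smul]
      exact hh k hk g
    · intro hh k hk g
      rw [← mul_smul]
      exact hh k hk g
  rw [h1]
  refine isClosed_iInter fun k => isClosed_iInter fun _ => isClosed_iInter fun g =>
    isClosed_eq ?_ continuous_const
  exact (hc k x).comp (continuous_const.mul continuous_id)

theorem fEq_iff_dense (hc : ∀ k x, Continuous fun h : H => Ψ k (h • x)) {d : ℕ → H}
    (hd : DenseRange d) (x y : X) :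
    FEq H Ψ i x y ↔ ∀ k ≤ i, ∀ m, Ψ k (d m • x) = Ψ k (d m • y) := by
  constructor
  · intro h k hk m
    exact h k hk (d m)
  · intro h k hk g
    have h1 : (fun g : H => Ψ k (g • x)) = fun g => Ψ k (g • y) := by
      refine hd.equalizer (hc k x) (hc k y) ?_
      funext m
      exact h k hk m
    exact congrFun h1 g

theorem fEq_meas (hmH : Measurable fun p : H × X => p.1 • p.2) (hΨ : ∀ k, Measurable (Ψ k))
    (hc : ∀ k x, Continuous fun h : H => Ψ k (h • x)) (s : X) :
    MeasurableSet {x | FEq H Ψ i x s} := by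
  let d : ℕ → H := TopologicalSpace.denseSeq H
  have hd : DenseRange d := TopologicalSpace.denseRange_denseSeq _
  have h1 : {x | FEq H Ψ i x s} = ⋂ k, ⋂ (_ : k ≤ i), ⋂ m,
      {x | Ψ k (d m • x) = Ψ k (d m • s)} := by
    ext x
    simp only [mem_iInter, mem_ofPred_eq]
    exact fEq_iff_dense hc hd x s
  rw [h1]
  refine MeasurableSet.iInter fun k => MeasurableSet.iInter fun _ => MeasurableSet.iInter fun m => ?_
  exact measurableSet_eq_fun ((hΨ k).comp (hmH.comp (measurable_const.prodMk measurable_id)))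
    measurable_const

/-- equality of the first functions up to the action -/
def FRel (H : Type) {X : Type} [Group H] [MulAction H X] (Ψ : ℕ → X → ℝ) (i : ℕ) (x y : X) : Prop :=
  ∃ h : H, FEq H Ψ i (h • x) y

theorem fRel_equiv (i : ℕ) : Equivalence (FRel (X := X) H Ψ i) := by
  refine ⟨fun x => ⟨1, by rw [one_smul]; exact FEq.refl x⟩, ?_, ?_⟩
  · rintro x y ⟨h, hh⟩
    refine ⟨h⁻¹, ?_⟩
    have h1 := hh.shift h⁻¹
    rw [inv_smul_smul] at h1
    exact h1.symm
  · rintro x y z ⟨h, hh⟩ ⟨h', hh'⟩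
    refine ⟨h' * h, ?_⟩
    rw [mul_smul]
    exact (hh.shift h').trans hh'

theorem fRel_meas (hmH : Measurable fun p : H × X => p.1 • p.2) (hΨ : ∀ k, Measurable (Ψ k))
    (hc : ∀ k x, Continuous fun h : H => Ψ k (h • x)) (i : ℕ) :
    MeasurableSet {p : X × X | FRel H Ψ i p.1 p.2} := by
  let d : ℕ → H := TopologicalSpace.denseSeq H
  have hd : DenseRange d := TopologicalSpace.denseRange_denseSeq _
  let θ : ℕ → X → ℝ := fun n x => Ψ (min n.unpair.1 i) (d n.unpair.2 • x)
  have h1 := rel_meas (act := fun p : H × X => p.1 • p.2) hmH (θ := θ)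
    (fun n => (hΨ _).comp (hmH.comp (measurable_const.prodMk measurable_id))) (fun n x => by
      show Continuous fun h : H => Ψ (min n.unpair.1 i) (d n.unpair.2 • h • x)
      simp only [← mul_smul]
      exact (hc _ x).comp (continuous_const.mul continuous_id))
  have h2 : {p : X × X | FRel H Ψ i p.1 p.2} =
      {p : X × X | ∃ h : H, ∀ n, θ n (h • p.1) = θ n p.2} := by
    ext ⟨x, y⟩
    refine exists_congr fun h => ?_
    rw [fEq_iff_dense hc hd]
    constructor
    · intro hh n
      exact hh _ (min_le_right _ _) _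
    · intro hh k hk m
      have h3 := hh (Nat.pair k m)
      simp only [θ, Nat.unpair_pair] at h3
      rwa [min_eq_left hk] at h3
  rw [h2]
  exact h1

/-- The dichotomy for commuting actions of a group which satisfies the topological Vaught conjecture
and a locally compact group which acts freely, if there is a model. -/
theorem dich_free (hW : TVC W) (hmW : Measurable fun p : W × X => p.1 • p.2)
    (hmH : Measurable fun p : H × X => p.1 • p.2)
    (hcom : ∀ (w : W) (h : H) (x : X), h • w • x = w • h • x)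
    (hfree : ∀ (h : H) (x : X), h • x = x → h = 1) {V₀ : ℕ → Subgroup W}
    (hV₀ : ∀ k, IsOpen (V₀ k : Set W)) (hΨ : ∀ k, Measurable (Ψ k))
    (hc : ∀ k x, Continuous fun h : H => Ψ k (h • x))
    (hΨV : ∀ k, ∀ v ∈ V₀ k, ∀ x, Ψ k (v • x) = Ψ k x)
    (hsep : ∀ x y, (∀ k, Ψ k x = Ψ k y) → x = y) :
    (∃ C : Set X, C.Countable ∧ ∀ x, ∃ s ∈ C, ∃ (w : W) (h : H), w • h • s = x) ∨
      ∃ f : (ℕ → Bool) → X, Measurable f ∧
        ∀ a b, a ≠ b → ¬ ∃ (w : W) (h : H), w • h • f a = f b := by
  -- the joint action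
  let act : (W × H) × X → X := fun p => p.1.1 • p.1.2 • p.2
  have hact : Measurable act := hmW.comp ((measurable_fst.comp measurable_fst).prodMk
    (hmH.comp ((measurable_snd.comp measurable_fst).prodMk measurable_snd)))
  -- decreasing open subgroups
  let V : ℕ → Subgroup W := fun i => ⨅ j : Fin (i + 1), V₀ j
  have hV : ∀ i, IsOpen (V i : Set W) := by
    intro i
    have : (V i : Set W) = ⋂ j : Fin (i + 1), (V₀ j : Set W) := Subgroup.coe_iInf
    rw [this]
    exact isOpen_iInter_of_finite fun j => hV₀ j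
  have hVj : ∀ i j, j ≤ i → V i ≤ V₀ j := fun i j hj =>
    iInf_le (fun j : Fin (i + 1) => V₀ j) ⟨j, Nat.lt_succ_of_le hj⟩
  have hinv : ∀ i, ∀ v ∈ V i, ∀ x, FEq H Ψ i (v • x) x := by
    intro i v hv x k hk h
    rw [hcom]
    exact hΨV k v (hVj i k hk hv) _
  have hdiff : ∀ (w w' : W) (h h' : H) (x : X),
      w • h • x = (w * w'⁻¹) • (h * h'⁻¹) • (w' • h' • x) := by
    intro w w' h h' x
    rw [hcom, smul_smul (h * h'⁻¹), inv_mul_cancel_right, smul_smul (w * w'⁻¹),
      inv_mul_cancel_right]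
  by_cases hperf : ∃ f : (ℕ → Bool) → X, Measurable f ∧
        ∀ a b, a ≠ b → ¬ ∃ (w : W) (h : H), w • h • f a = f b
  · exact Or.inr hperf
  left
  -- countably many classes at every level
  have hreps : ∀ i, ∃ R : Set X, R.Countable ∧ ∀ x, ∃ s ∈ R, FRel H Ψ i x s := by
    intro i
    let _ := upgradeStandardBorel X
    rcases Pool.Agent.H579R3.SV.silver (fRel_equiv (H := H) (Ψ := Ψ) i)
      (fRel_meas hmH hΨ hc i) (MeasurableSet.univ (α := X)).analyticSet with
      ⟨R, -, hR, hR2⟩ | ⟨f, hf, -, hf2⟩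
    · exact ⟨R, hR, fun x => hR2 x (mem_univ x)⟩
    · exfalso
      have hsec : ∀ b, {b' | ∃ p : W × H, act (p, f b) = f b'}.Countable := by
        intro b
        choose p hp using fun b' : {b' | ∃ p : W × H, act (p, f b) = f b'} => b'.2
        refine countable_of_far2 (O := (V i : Set W) ×ˢ univ)
          (prod_mem_nhds ((hV i).mem_nhds (V i).one_mem) univ_mem) p fun a c hac => ?_
        by_contra hne
        refine hf2 c a (fun e => hne (Subtype.ext e).symm) ⟨(p a).2 * (p c).2⁻¹, ?_⟩
        have h1 : (p a).1 • (p a).2 • (f b) = f a := hp a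
        have h2 : (p c).1 • (p c).2 • (f b) = f c := hp c
        rw [hdiff (p a).1 (p c).1 (p a).2 (p c).2, h2] at h1
        have h3 := hinv i _ hac.1 (((p a).2 * (p c).2⁻¹) • (f c))
        have h4 : (p a * (p c)⁻¹).1 = (p a).1 * (p c).1⁻¹ := rfl
        rw [h4, h1] at h3
        exact h3.symm
      obtain ⟨c, hc, hc2⟩ := perfect_of_countable' hact hf.measurable hsec
      exact hperf ⟨fun b => f (c b), hf.measurable.comp hc.measurable, fun a b hab ⟨w, t, h⟩ =>
        hc2 a b hab ⟨(w, t), h⟩⟩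
  choose R hR hR2 using hreps
  -- every piece meets countably many orbits
  have hpiece : ∀ i s, ∃ C : Set X, C.Countable ∧ (Good (fStab H Ψ i s) →
      ∀ x, FEq H Ψ i x s → ∃ c ∈ C, ∃ (w : W) (h : H), w • h • c = x) := by
    intro i s
    by_cases hgood : Good (fStab H Ψ i s)
    swap
    · exact ⟨∅, countable_empty, fun h => absurd h hgood⟩
    obtain ⟨K, hK, hKT, U, hU, hUK⟩ := hgood
    have hstab : ∀ x, FEq H Ψ i x s → ∀ k ∈ K, FEq H Ψ i (k • x) x := by
      intro x hx k hk
      have h1 := hKT hk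
      rwa [← fStab_congr hx] at h1
    let Y : Type := {x : X // FEq H Ψ i x s}
    let actY : MulAction (V i × K) Y :=
      { smul := fun p y => ⟨(p.1 : W) • (p.2 : H) • (y : X),
          ((hinv i p.1 p.1.2 _).trans (hstab y y.2 p.2 p.2.2)).trans y.2⟩
        one_smul := fun y => Subtype.ext (by
          show (1 : W) • (1 : H) • (y : X) = y
          rw [one_smul, one_smul])
        mul_smul := fun p p' y => Subtype.ext (by
          show ((p.1 : W) * (p'.1 : W)) • ((p.2 : H) * (p'.2 : H)) • (y : X) =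
            (p.1 : W) • (p.2 : H) • ((p'.1 : W) • (p'.2 : H) • (y : X))
          rw [hcom, mul_smul, mul_smul]) }
    have hYm : MeasurableSet {x | FEq H Ψ i x s} := fEq_meas hmH hΨ hc s
    have _ : StandardBorelSpace Y := hYm.standardBorel
    have hmY : Measurable fun r : (V i × K) × Y => r.1 • r.2 := by
      refine Measurable.subtype_mk ?_
      refine hmW.comp ((measurable_subtype_coe.comp (measurable_fst.comp measurable_fst)).prodMk
        (hmH.comp ((measurable_subtype_coe.comp (measurable_snd.comp measurable_fst)).prodMk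
        (measurable_subtype_coe.comp measurable_snd))))
    have _ : MeasurableSMul₂ (V i × K) Y := ⟨hmY⟩
    have _ : PolishSpace (V i) := (hV i).polishSpace
    have _ : PolishSpace K := hK.isClosed.polishSpace
    have _ : CompactSpace K := isCompact_iff_compactSpace.1 hK
    have hVK : TVC (V i × K) := by
      refine (tvc_compact (MonoidHom.fst (V i) K) continuous_fst Prod.fst_surjective ?_).2
        (tvc_down (hV i) hW)
      have h1 : ((MonoidHom.fst (V i) K).ker : Set (V i × K)) = {1} ×ˢ univ := by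
        ext ⟨w, h⟩
        rw [SetLike.mem_coe, MonoidHom.mem_ker]
        exact ⟨fun h' => ⟨h', mem_univ _⟩, fun h' => h'.1⟩
      rw [h1]
      exact isCompact_singleton.prod isCompact_univ
    rcases hVK Y with h1 | ⟨f, hf, hf2⟩
    · rw [countable_orbits_iff] at h1
      obtain ⟨C, hC, hC2⟩ := h1
      refine ⟨Subtype.val '' C, hC.image _, fun _ x hx => ?_⟩
      obtain ⟨c, hc, g, hg⟩ := hC2 ⟨x, hx⟩
      exact ⟨c, ⟨c, hc, rfl⟩, g.1, g.2, congrArg Subtype.val hg⟩
    · exfalso
      have hfX : Measurable fun b => (f b : X) := measurable_subtype_coe.comp hf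
      have hsec : ∀ b, {b' | ∃ p : W × H, act (p, (f b : X)) = (f b' : X)}.Countable := by
        intro b
        choose p hp using fun b' : {b' | ∃ p : W × H, act (p, (f b : X)) = (f b' : X)} => b'.2
        refine countable_of_far2 (O := (V i : Set W) ×ˢ U)
          (prod_mem_nhds ((hV i).mem_nhds (V i).one_mem) hU) p fun a c hac => ?_
        by_contra hne
        have h1 : (p a).1 • (p a).2 • (f b : X) = (f a : X) := hp a
        have h2 : (p c).1 • (p c).2 • (f b : X) = (f c : X) := hp c
        rw [hdiff (p a).1 (p c).1 (p a).2 (p c).2, h2] at h1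
        have hacV : (p a).1 * (p c).1⁻¹ ∈ V i := hac.1
        have hacU : (p a).2 * (p c).2⁻¹ ∈ U := hac.2
        have h3 := hinv i _ hacV (((p a).2 * (p c).2⁻¹) • (f c : X))
        rw [h1] at h3
        have h4 : (p a).2 * (p c).2⁻¹ ∈ fStab H Ψ i s := by
          rw [← fStab_congr (f c).2, mem_fStab]
          exact h3.symm.trans ((f a).2.trans (f c).2.symm)
        have h5 := hUK _ h4 hacU
        exact hf2 c a (fun e => hne (Subtype.ext e).symm)
          ⟨(⟨_, hacV⟩, ⟨_, h5⟩), Subtype.ext h1⟩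
      obtain ⟨c, hc, hc2⟩ := perfect_of_countable' hact hfX hsec
      exact hperf ⟨fun b => (f (c b) : X), hfX.comp hc.measurable, fun a b hab ⟨w, t, h⟩ =>
        hc2 a b hab ⟨(w, t), h⟩⟩
  choose C hC hC2 using hpiece
  refine ⟨⋃ i, ⋃ s ∈ R i, C i s, countable_iUnion fun i => (hR i).biUnion fun s _ => hC i s,
    fun x => ?_⟩
  obtain ⟨i, hi⟩ := exists_good (fun i => fStab H Ψ i x) (fStab_anti x)
    (fun i => fStab_closed hc x) (fun h hh => hfree h x (hsep _ _ fun k => by
      have h1 := hh k k le_rfl 1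
      rwa [one_smul, one_smul] at h1))
  obtain ⟨s, hs, h, hh⟩ := hR2 i x
  have hst : Good (fStab H Ψ i s) := by
    rw [← fStab_congr hh]
    exact hi.conj h fun t => mem_fStab_smul h t
  obtain ⟨c, hc, w, h', hw⟩ := hC2 i s hst _ hh
  refine ⟨c, mem_iUnion.2 ⟨i, mem_iUnion₂.2 ⟨s, hs, hc⟩⟩, w, h⁻¹ * h', ?_⟩
  rw [mul_smul, ← hcom, hw, inv_smul_smul]

end Core

end Pool.Agent.V8H60.TV
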