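import Mathlib
import Pool.Agent.V8H60.TV.Free
import Pool.Agent.V8H36.TV.Model

set_option autoImplicit false
set_option linter.unusedSectionVars false

/-!
# Products of nonarchimedean groups with locally compact groups
-/

namespace Pool.Agent.V8H60.TV

open Set Filter Topology MeasureTheory
open Function (Surjective Injective)

/-- The dichotomy for actions of the product of a nonarchimedean group and a locally compact group
which acts freely. -/
theorem free_lc {W : Type} [TopologicalSpace W] [Group W] [NonarchimedeanGroup W]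
    [PolishSpace W] [MeasurableSpace W] [BorelSpace W] (hW : TVC W)
    (L : Type) [TopologicalSpace L] [Group L] [IsTopologicalGroup L] [PolishSpace L]
    [LocallyCompactSpace L] [MeasurableSpace L] [BorelSpace L] (Y : Type) [MeasurableSpace Y]
    [StandardBorelSpace Y] [MulAction (W × L) Y] [MeasurableSMul₂ (W × L) Y]
    (hfree : ∀ (l : L) (y : Y), ((1, l) : W × L) • y = y → l = 1) : Dich (W × L) Y := by
  have hm : Measurable fun p : (W × L) × Y => p.1 • p.2 := measurable_smul
  let actW : MulAction W Y := MulAction.compHom Y (MonoidHom.inl W L)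
  let actL : MulAction L Y := MulAction.compHom Y (MonoidHom.inr W L)
  have hactW : ∀ (w : W) (y : Y), w • y = ((w, 1) : W × L) • y := fun _ _ => rfl
  have hactL : ∀ (l : L) (y : Y), l • y = ((1, l) : W × L) • y := fun _ _ => rfl
  have hmW : Measurable fun p : W × Y => p.1 • p.2 :=
    hm.comp ((measurable_fst.prodMk measurable_const).prodMk measurable_snd)
  have hmL : Measurable fun p : L × Y => p.1 • p.2 :=
    hm.comp ((measurable_const.prodMk measurable_fst).prodMk measurable_snd)
  have hjoint : ∀ (w : W) (l : L) (y : Y), w • l • y = ((w, l) : W × L) • y := by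
    intro w l y
    rw [hactW, hactL, ← mul_smul, Prod.mk_mul_mk, one_mul, mul_one]
  have hcom : ∀ (w : W) (l : L) (y : Y), l • w • y = w • l • y := by
    intro w l y
    rw [hjoint, hactW, hactL, ← mul_smul, Prod.mk_mul_mk, one_mul, mul_one]
  obtain ⟨Ψ, V, hV, hΨ, hc, hΨV, hsep⟩ := Pool.Agent.V8H36.TV.exists_model hmW hmL hcom
  rcases dich_free hW hmW hmL hcom (fun l y h => hfree l y h) hV hΨ hc hΨV hsep with
    ⟨C, hC, hC2⟩ | ⟨f, hf, hf2⟩
  · left
    rw [countable_orbits_iff]
    refine ⟨C, hC, fun x => ?_⟩
    obtain ⟨s, hs, w, t, h⟩ := hC2 x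
    exact ⟨s, hs, (w, t), by rw [← hjoint, h]⟩
  · right
    refine ⟨f, hf, fun a b hab => ?_⟩
    rintro ⟨⟨w, l⟩, hg⟩
    exact hf2 a b hab ⟨w, l, by rw [hjoint, hg]⟩

end Pool.Agent.V8H60.TV
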