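import Mathlib
import Pool.Agent.V8H60.TV.Vec

set_option autoImplicit false
set_option linter.unusedSectionVars false

/-!
# Products with homomorphic images of Euclidean spaces
-/

namespace Pool.Agent.V8H60.TV

open Set Filter Topology MeasureTheory
open Function (Surjective Injective)

variable {W H : Type} [TopologicalSpace W] [Group W] [IsTopologicalGroup W]
  [PolishSpace W] [MeasurableSpace W] [BorelSpace W] [TopologicalSpace H] [Group H]
  [IsTopologicalGroup H] [PolishSpace H] [MeasurableSpace H] [BorelSpace H]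

/-- The topological Vaught conjecture for the product of a nonarchimedean group with a homomorphic
image of a Euclidean space. -/
theorem tvc_prod {n : ℕ} (hna : NonarchimedeanGroup W) {φ : Eu n → H} (hφ : Continuous φ)
    (hφs : Surjective φ) (hadd : ∀ s t, φ (s + t) = φ s * φ t) (hW : TVC W) : TVC (W × H) := by
  intro X _ _ _ _
  have hm : Measurable fun p : (W × H) × X => p.1 • p.2 := measurable_smul
  have hφ0 : φ 0 = 1 := by
    have h1 := hadd 0 0
    rw [add_zero] at h1
    exact (mul_eq_left.1 h1.symm)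
  let act : MulAction W X := MulAction.compHom X (MonoidHom.inl W H)
  have hact : ∀ (w : W) (x : X), w • x = ((w, 1) : W × H) • x := fun _ _ => rfl
  have hmW : Measurable fun p : W × X => p.1 • p.2 :=
    hm.comp ((measurable_fst.prodMk measurable_const).prodMk measurable_snd)
  let τ : Eu n → X → X := fun t x => ((1, φ t) : W × H) • x
  have hτ : Measurable fun p : Eu n × X => τ p.1 p.2 :=
    hm.comp ((measurable_const.prodMk (hφ.measurable.comp measurable_fst)).prodMk measurable_snd)
  have h0 : ∀ x, τ 0 x = x := by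
    intro x
    show ((1, φ 0) : W × H) • x = x
    rw [hφ0]
    exact one_smul _ x
  have hτadd : ∀ s t x, τ (s + t) x = τ s (τ t x) := by
    intro s t x
    show ((1, φ (s + t)) : W × H) • x = ((1, φ s) : W × H) • ((1, φ t) : W × H) • x
    rw [← mul_smul, Prod.mk_mul_mk, one_mul, hadd]
  have hjoint : ∀ (w : W) (t : Eu n) (x : X), w • τ t x = ((w, φ t) : W × H) • x := by
    intro w t x
    show ((w, 1) : W × H) • ((1, φ t) : W × H) • x = _
    rw [← mul_smul, Prod.mk_mul_mk, one_mul, mul_one]
  have hcom : ∀ (w : W) t x, τ t (w • x) = w • τ t x := by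
    intro w t x
    rw [hjoint]
    show ((1, φ t) : W × H) • ((w, 1) : W × H) • x = _
    rw [← mul_smul, Prod.mk_mul_mk, one_mul, mul_one]
  rcases dich_vec hW hmW hτ h0 hτadd hcom with ⟨C, hC, hC2⟩ | ⟨f, hf, hf2⟩
  · left
    rw [countable_orbits_iff]
    refine ⟨C, hC, fun x => ?_⟩
    obtain ⟨s, hs, w, t, h⟩ := hC2 x
    exact ⟨s, hs, (w, φ t), by rw [← hjoint, h]⟩
  · right
    refine ⟨f, hf, fun a b hab => ?_⟩
    rintro ⟨⟨w, h⟩, hg⟩
    obtain ⟨t, rfl⟩ := hφs h
    exact hf2 a b hab ⟨w, t, by rw [hjoint, hg]⟩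

theorem tvc_prod_iff {n : ℕ} (hna : n = 0 ∨ NonarchimedeanGroup W) {φ : Eu n → H}
    (hφ : Continuous φ) (hφs : Surjective φ) (hadd : ∀ s t, φ (s + t) = φ s * φ t) :
    TVC (W × H) ↔ TVC W := by
  rcases hna with rfl | hna
  · have hHc : CompactSpace H := by
      have h1 : CompactSpace (Eu 0) := Finite.compactSpace
      exact hφs.compactSpace hφ
    refine tvc_compact (MonoidHom.fst W H) continuous_fst Prod.fst_surjective ?_
    have h1 : ((MonoidHom.fst W H).ker : Set (W × H)) = {1} ×ˢ univ := by
      ext ⟨w, h⟩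
      rw [SetLike.mem_coe, MonoidHom.mem_ker]
      exact ⟨fun h' => ⟨h', mem_univ _⟩, fun h' => h'.1⟩
    rw [h1]
    exact isCompact_singleton.prod isCompact_univ
  · exact ⟨tvc_quot (MonoidHom.fst W H) continuous_fst Prod.fst_surjective,
      tvc_prod hna hφ hφs hadd⟩

end Pool.Agent.V8H60.TV
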